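import Pool.Agent.P.MP_1a5a6a_pr.Half

/-! Assembly of a finitary isomorphism from two halves of a coding. -/

set_option autoImplicit false

open MeasureTheory ProbabilityTheory Filter Topology
open scoped ENNReal

namespace Pool.Agent.FDI

variable {d : ℕ}

namespace Assembly

variable {K T LA LB FA FB : Type} [MeasurableSpace K] [MeasurableSpace LA] [MeasurableSpace LB]
  {H : Hier d K T} {η : Measure (G d → K)} {A : Side H η LA FA} {B : Side H η LB FB}
  {R : ℕ → T → (G d → LA) → (G d → LB) → Prop}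

/-- The cell `s` covers the origin and determines the value there. -/
def cnd (X : Half A B R) (s : ℕ × G d × T) (ω : G d → K × LA) : Prop :=
  H.th s.1 (sh s.2.1 (cm ω)) = some s.2.2 ∧ -s.2.1 ∈ H.C s.2.2 ∧
    sh s.2.1 (pv ω) ∈ X.det s.1 s.2.2 (-s.2.1)

/-- The value at the origin read off the cell `s`. -/
def vl (X : Half A B R) (s : ℕ × G d × T) (ω : G d → K × LA) : LB :=
  X.val s.1 s.2.2 (-s.2.1) (sh s.2.1 (pv ω))

open Classical in
/-- The value at the origin read off the first determining cell. -/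
noncomputable def out (X : Half A B R) (e : ℕ → ℕ × G d × T) (b0 : LB) (ω : G d → K × LA) : LB :=
  if h : ∃ i, cnd X (e i) ω then vl X (e (Nat.find h)) ω else b0

/-- The coding map. -/
noncomputable def phi (X : Half A B R) (e : ℕ → ℕ × G d × T) (b0 : LB) (ω : G d → K × LA) :
    G d → K × LB := fun v => ((ω v).1, out X e b0 (sh v ω))

theorem measurableSet_cnd (X : Half A B R) (s : ℕ × G d × T) :
    MeasurableSet {ω | cnd X s ω} :=
  (measurable_cm (H.measurableSet_th_sh _ _ _)).inter ((MeasurableSet.const _).inter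
    (((measurable_sh _).comp measurable_pv) (X.det_meas _ _ _)))

theorem measurable_vl (X : Half A B R) (s : ℕ × G d × T) : Measurable (vl X s) :=
  (X.val_meas _ _ _).comp ((measurable_sh _).comp measurable_pv)

theorem measurable_out (X : Half A B R) (e : ℕ → ℕ × G d × T) (b0 : LB) :
    Measurable (out X e b0) := by
  classical
  have hm : MeasurableSet {ω | ∃ i, cnd X (e i) ω} := by
    simp only [Set.ofPred_exists]
    exact MeasurableSet.iUnion fun i => measurableSet_cnd X (e i)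
  intro E hE
  have : out X e b0 ⁻¹' E = (⋃ i, ({ω | cnd X (e i) ω} ∩ ⋂ j, ⋂ _ : j < i, {ω | cnd X (e j) ω}ᶜ) ∩
      vl X (e i) ⁻¹' E) ∪ ({ω | ∃ i, cnd X (e i) ω}ᶜ ∩ {_ω | b0 ∈ E}) := by
    ext ω
    simp only [Set.mem_preimage, Set.mem_union, Set.mem_iUnion, Set.mem_inter_iff,
      Set.mem_ofPred_eq, Set.mem_iInter, Set.mem_compl_iff]
    unfold out
    split_ifs with h
    · constructor
      · intro h1
        exact Or.inl ⟨Nat.find h, ⟨Nat.find_spec h, fun j hj => Nat.find_min h hj⟩, h1⟩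
      · rintro (⟨i, ⟨h1, h2⟩, h3⟩ | ⟨h1, _⟩)
        · rwa [(Nat.find_eq_iff h).2 ⟨h1, h2⟩]
        · exact absurd h h1
    · constructor
      · intro h1
        exact Or.inr ⟨h, h1⟩
      · rintro (⟨i, ⟨h1, _⟩, _⟩ | ⟨_, h1⟩)
        · exact absurd ⟨i, h1⟩ h
        · exact h1
  rw [this]
  refine MeasurableSet.union (MeasurableSet.iUnion fun i => ?_) (hm.compl.inter
    (MeasurableSet.const _))
  exact ((measurableSet_cnd X _).inter (MeasurableSet.iInter fun j => MeasurableSet.iInter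
    fun _ => (measurableSet_cnd X _).compl)).inter (measurable_vl X _ hE)

theorem measurable_phi (X : Half A B R) (e : ℕ → ℕ × G d × T) (b0 : LB) :
    Measurable (phi X e b0) :=
  measurable_pi_lambda _ fun v => (measurable_pi_apply v).fst.prodMk
    ((measurable_out X e b0).comp (measurable_sh v))

theorem phi_sh (X : Half A B R) (e : ℕ → ℕ × G d × T) (b0 : LB) (a : G d) (ω : G d → K × LA) :
    phi X e b0 (sh a ω) = sh a (phi X e b0 ω) := by
  funext v
  simp [phi, sh_sh]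

theorem cm_phi (X : Half A B R) (e : ℕ → ℕ × G d × T) (b0 : LB) (ω : G d → K × LA) :
    cm (phi X e b0 ω) = cm ω := rfl

theorem pv_phi (X : Half A B R) (e : ℕ → ℕ × G d × T) (b0 : LB) (ω : G d → K × LA) (v : G d) :
    pv (phi X e b0 ω) v = out X e b0 (sh v ω) := rfl

theorem out_spec (X : Half A B R) {e : ℕ → ℕ × G d × T} (he : Function.Surjective e) (b0 : LB)
    {ω : G d → K × LA} (h : ∃ s, cnd X s ω) : ∃ s, cnd X s ω ∧ out X e b0 ω = vl X s ω := by
  classical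
  have h' : ∃ i, cnd X (e i) ω := by
    obtain ⟨s, hs⟩ := h
    obtain ⟨i, rfl⟩ := he s
    exact ⟨i, hs⟩
  exact ⟨_, Nat.find_spec h', by unfold out; rw [dif_pos h']⟩

theorem ae_cnd (X : Half A B R) : ∀ᵐ ω ∂A.P, ∃ s, cnd X s ω := by
  filter_upwards [X.ae_det] with ω hω
  obtain ⟨n, u, θ, h⟩ := hω
  exact ⟨(n, u, θ), h⟩

theorem ae_out (X : Half A B R) {e : ℕ → ℕ × G d × T} (he : Function.Surjective e) (b0 : LB) :
    ∀ᵐ ω ∂A.P, ∀ v, ∃ s, cnd X s (sh v ω) ∧ out X e b0 (sh v ω) = vl X s (sh v ω) := by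
  filter_upwards [A.stat.ae_all (ae_cnd X)] with ω hω v
  exact out_spec X he b0 (hω v)

theorem cnd_loc (X : Half A B R) (s : ℕ × G d × T) : ∃ ρ : ℕ, ∀ ω ω' : G d → K × LA,
    (∀ v, nrm v ≤ ρ → ω v = ω' v) → (cnd X s ω → cnd X s ω') ∧ vl X s ω = vl X s ω' := by
  obtain ⟨n, u, θ⟩ := s
  obtain ⟨ρ, hρ⟩ := H.loc n
  obtain ⟨r, hr⟩ := exists_ball_supset (H.C θ)
  refine ⟨ρ + r + nrm u, fun ω ω' h => ?_⟩
  have h1 : ∀ v ∈ H.C θ, sh u (pv ω) v = sh u (pv ω') v := by
    intro v hv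
    have := mem_ball.1 (hr hv)
    have := nrm_add_le v u
    simp only [sh_apply, pv]
    rw [h _ (by omega)]
  refine ⟨?_, X.val_loc _ _ _ _ _ h1⟩
  rintro ⟨a1, a2, a3⟩
  refine ⟨?_, a2, X.det_loc _ _ _ _ _ h1 a3⟩
  rw [← a1]
  refine hρ _ _ fun v hv => ?_
  have := nrm_add_le v u
  simp only [sh_apply, cm]
  rw [h _ (by omega)]

theorem finitary_phi (X : Half A B R) {e : ℕ → ℕ × G d × T} (he : Function.Surjective e)
    (b0 : LB) : Finitary A.P (phi X e b0) := by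
  classical
  choose ρ hρ using cnd_loc X
  filter_upwards [ae_cnd X] with ω hω
  have h : ∃ i, cnd X (e i) ω := by
    obtain ⟨s, hs⟩ := hω
    obtain ⟨i, rfl⟩ := he s
    exact ⟨i, hs⟩
  refine ⟨(Finset.range (Nat.find h + 1)).sup fun i => ρ (e i), fun ω' hag => ?_⟩
  have h1 : ∀ i ≤ Nat.find h, ∀ v, nrm v ≤ ρ (e i) → ω' v = ω v := fun i hi v hv =>
    hag v (hv.trans (Finset.le_sup (f := fun i => ρ (e i))
      (Finset.mem_range.2 (Nat.lt_succ_of_le hi))))
  have h2 : cnd X (e (Nat.find h)) ω' :=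
    (hρ _ ω ω' fun v hv => (h1 _ le_rfl v hv).symm).1 (Nat.find_spec h)
  have h' : ∃ i, cnd X (e i) ω' := ⟨_, h2⟩
  have h3 : Nat.find h' = Nat.find h :=
    (Nat.find_eq_iff h').2 ⟨h2, fun j hj hc =>
      Nat.find_min h hj ((hρ _ ω' ω (h1 j hj.le)).1 hc)⟩
  unfold phi out
  rw [sh_zero, sh_zero, dif_pos h, dif_pos h', h3, hag 0 (by simp),
    (hρ _ ω' ω (h1 _ le_rfl)).2]

/-- A partner on a higher cell takes the determined values. -/
theorem key (X : Half A B R)
    (nested : ∀ n θ h j u θ' p q, η (H.ev n θ) ≠ 0 → H.th n h = some θ → j < n → u ∈ H.C θ →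
      H.th j (sh u h) = some θ' → R n θ p q → R j θ' (sh u p) (sh u q))
    {n : ℕ} {θ : T} {ω : G d → K × LA} {q : G d → LB} (hpos : η (H.ev n θ) ≠ 0)
    (hθ : H.th n (cm ω) = some θ) (hR : R n θ (pv ω) q) {v : G d} {s : ℕ × G d × T}
    (hs : cnd X s (sh v ω)) (hlt : s.1 < n) (hin : s.2.1 + v ∈ H.C θ) :
    q v = vl X s (sh v ω) := by
  obtain ⟨j, u, θ'⟩ := s
  obtain ⟨a1, a2, a3⟩ := hs
  simp only [cm_sh, pv_sh, sh_sh] at a1 a2 a3 hlt hin
  have h1 := nested n θ _ j (u + v) θ' _ q hpos hθ hlt hin a1 hR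
  have h2 := X.sound j θ' (-u) _ _ (H.ev_pos_sub A.eta_stat hlt hθ hin a1 hpos) a2 a3 h1
  simp only [sh_apply] at h2
  rw [show -u + (u + v) = v by abel] at h2
  rw [h2]
  simp only [vl, pv_sh, sh_sh]

/-- The law of the image on one cell. -/
theorem law_cell [Countable T] (X : Half A B R)
    (nested : ∀ n θ h j u θ' p q, η (H.ev n θ) ≠ 0 → H.th n h = some θ → j < n → u ∈ H.C θ →
      H.th j (sh u h) = some θ' → R n θ p q → R j θ' (sh u p) (sh u q))
    (e : ℕ → ℕ × G d × T) (b0 : LB) (n : ℕ) (θ : T) (J : Finset (G d)) (hJ : J ⊆ H.C θ)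
    {E : Set (G d → LB)} (hE : MeasurableSet E) (hdep : Dep (J : Set (G d)) E)
    {D : Set (G d → K)} (hD : MeasurableSet D) :
    A.P {ω | cm ω ∈ H.ev n θ ∩ D ∧ (∀ v ∈ J, ∃ s, cnd X s (sh v ω) ∧
      out X e b0 (sh v ω) = vl X s (sh v ω) ∧ s.1 < n ∧ s.2.1 + v ∈ H.C θ) ∧
      pv (phi X e b0 ω) ∈ E} ≤ B.P (cm ⁻¹' (H.ev n θ ∩ D) ∩ pv ⁻¹' E) := by
  classical
  by_cases hpos : η (H.ev n θ) = 0
  · rw [← A.P_cm (H.measurableSet_ev n θ)] at hpos
    rw [measure_mono_null (fun ω hω => hω.1.1) hpos]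
    exact zero_le
  obtain ⟨h0, hh0⟩ := nonempty_of_measure_ne_zero hpos
  have hh0' : H.th n h0 = some θ := hh0
  let fill : (J → ℕ × G d × T) → (G d → LA) → (G d → LB) := fun c p v =>
    if hv : v ∈ J then vl X (c ⟨v, hv⟩) (sh v (zp (h0, p))) else b0
  have hz : Measurable fun p : G d → LA => zp (h0, p) :=
    measurable_zp.comp (measurable_const.prodMk measurable_id)
  have hfill : ∀ c, Measurable (fill c) := by
    intro c
    refine measurable_pi_lambda _ fun v => ?_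
    by_cases hv : v ∈ J
    · simp only [fill, dif_pos hv]
      exact (measurable_vl X _).comp ((measurable_sh v).comp hz)
    · simp only [fill, dif_neg hv]
      exact measurable_const
  let A' : Set (G d → LA) := {p | ∃ c : J → ℕ × G d × T,
    (∀ v : J, cnd X (c v) (sh v (zp (h0, p))) ∧ (c v).1 < n ∧ (c v).2.1 + v ∈ H.C θ) ∧
      fill c p ∈ E}
  have hA' : MeasurableSet A' := by
    simp only [A', Set.ofPred_exists]
    refine MeasurableSet.iUnion fun c => MeasurableSet.inter ?_ (hfill c hE)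
    show MeasurableSet {p | ∀ v : J, _}
    simp only [Set.ofPred_forall]
    refine MeasurableSet.iInter fun v => MeasurableSet.inter ?_ (MeasurableSet.const _)
    exact ((measurable_sh (v : G d)).comp hz) (measurableSet_cnd X (c v))
  have hdA : Dep (H.C θ : Set (G d)) A' := by
    rintro p p' hag ⟨c, h1, h2⟩
    have h3 : ∀ v : J, ∀ w ∈ H.C (c v).2.2, sh (c v).2.1 (pv (sh v (zp (h0, p)))) w =
        sh (c v).2.1 (pv (sh v (zp (h0, p')))) w := by
      intro v w hw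
      obtain ⟨⟨a1, a2, _⟩, a4, a5⟩ := h1 v
      rw [cm_sh, sh_sh] at a1
      have := H.nest_in (u := 0) a4 a1 (by rw [sh_zero]; exact hh0') (v := (c v).2.1 + v)
        (by simpa using H.CZ _ (H.zero_mem_C a1)) (by simpa using H.CZ _ a5)
        (w + ((c v).2.1 + v)) (by simpa using H.CZ _ hw)
      rw [sub_zero] at this
      show p (w + (c v).2.1 + v) = p' (w + (c v).2.1 + v)
      rw [add_assoc]
      exact hag _ this
    refine ⟨c, fun v => ⟨⟨(h1 v).1.1, (h1 v).1.2.1, ?_⟩, (h1 v).2⟩, ?_⟩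
    · exact X.det_loc _ _ _ _ _ (h3 v) (h1 v).1.2.2
    · refine hdep _ _ (fun v hv => ?_) h2
      have hv' : v ∈ J := hv
      simp only [fill, dif_pos hv']
      exact X.val_loc _ _ _ _ _ (h3 ⟨v, hv'⟩)
  have hdE : Dep (H.C θ : Set (G d)) E := hdep.mono (Finset.coe_subset.2 hJ)
  have hall := X.hall n θ hpos A' E hA' hdA hE hdE (by
    rintro p ⟨c, h1, h2⟩ q hq
    refine hdep _ _ (fun v hv => ?_) h2
    have hv' : v ∈ J := hv
    simp only [fill, dif_pos hv']
    exact (key X nested (ω := zp (h0, p)) hpos hh0' hq (h1 ⟨v, hv'⟩).1 (h1 ⟨v, hv'⟩).2.1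
      (h1 ⟨v, hv'⟩).2.2).symm)
  rw [B.raw n θ E D hE hD hdE]
  refine le_trans (measure_mono ?_) ((A.raw n θ A' D hA' hD hdA).le.trans
    (mul_le_mul_left hall _))
  rintro ω ⟨a1, a2, a3⟩
  refine ⟨a1, ?_⟩
  choose c hc using a2
  refine ⟨fun v => c v v.2, fun v => ⟨⟨?_, (hc v v.2).1.2.1, (hc v v.2).1.2.2⟩, (hc v v.2).2.2⟩,
    hdep _ _ (fun v hv => ?_) a3⟩
  · have b1 := (hc v v.2).1.1
    rw [cm_sh, sh_sh] at b1 ⊢
    rw [← b1]
    exact H.sub _ _ _ n _ θ (hc v v.2).2.2.1 hh0' a1.1 (hc v v.2).2.2.2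
  · have hv' : v ∈ J := hv
    simp only [fill, dif_pos hv']
    exact (hc v hv').2.1

theorem law_le [Countable T] (hc : H.Cov η) (X : Half A B R)
    (nested : ∀ n θ h j u θ' p q, η (H.ev n θ) ≠ 0 → H.th n h = some θ → j < n → u ∈ H.C θ →
      H.th j (sh u h) = some θ' → R n θ p q → R j θ' (sh u p) (sh u q))
    {e : ℕ → ℕ × G d × T} (he : Function.Surjective e) (b0 : LB) {r : ℕ}
    {E : Set (G d → LB)} (hE : MeasurableSet E) (hdep : Dep (ball d r : Set (G d)) E)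
    {D : Set (G d → K)} (hD : MeasurableSet D) :
    A.P {ω | cm ω ∈ D ∧ pv (phi X e b0 ω) ∈ E} ≤ B.P (cm ⁻¹' D ∩ pv ⁻¹' E) := by
  classical
  let Gd : ℕ → Set (G d → K × LA) := fun N => {ω | r ≤ N ∧ cm ω ∈ D ∧
    (∀ v ∈ ball d r, ∃ s, cnd X s (sh v ω) ∧ out X e b0 (sh v ω) = vl X s (sh v ω) ∧ s.1 < N ∧
      nrm (s.2.1 + v) ≤ N) ∧ pv (phi X e b0 ω) ∈ E}
  have hmono : Monotone Gd := by
    rintro N N' hN ω ⟨a1, a2, a3, a4⟩
    refine ⟨a1.trans hN, a2, fun v hv => ?_, a4⟩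
    obtain ⟨s, b1, b2, b3, b4⟩ := a3 v hv
    exact ⟨s, b1, b2, b3.trans_le hN, b4.trans hN⟩
  have h1 : A.P {ω | cm ω ∈ D ∧ pv (phi X e b0 ω) ∈ E} ≤ A.P (⋃ N, Gd N) := by
    refine measure_mono_ae ?_
    filter_upwards [ae_out X he b0] with ω hω h
    choose c hc using hω
    refine Set.mem_iUnion.2 ⟨r + (ball d r).sup fun v => (c v).1 + 1 + nrm ((c v).2.1 + v),
      Nat.le_add_right _ _, h.1, fun v hv => ⟨c v, (hc v).1, (hc v).2, ?_⟩, h.2⟩
    have := Finset.le_sup (f := fun v => (c v).1 + 1 + nrm ((c v).2.1 + v)) hv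
    omega
  refine h1.trans ?_
  rw [hmono.measure_iUnion]
  refine iSup_le fun N => ?_
  let F : ℕ → Set (G d → K) := fun i => {h | H.th (e i).1 (sh (e i).2.1 h) = some (e i).2.2} ∩
    {_h | N ≤ (e i).1 ∧ ∀ v, nrm v ≤ N → v - (e i).2.1 ∈ H.C (e i).2.2}
  have hF : ∀ i, MeasurableSet (F i) := fun i =>
    (H.measurableSet_th_sh _ _ _).inter (MeasurableSet.const _)
  have hF' : ∀ i, MeasurableSet (disjointed F i) := MeasurableSet.disjointed hF
  have h2 : A.P (Gd N) ≤ A.P (⋃ i, Gd N ∩ cm ⁻¹' disjointed F i) := by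
    refine measure_mono_ae ?_
    filter_upwards [A.ae_cm hc.ae_all] with ω hω h
    obtain ⟨n, hn, u, θ, a1, a2⟩ := hω N N
    obtain ⟨i, hi⟩ := he (n, u, θ)
    have : cm ω ∈ ⋃ i, F i := Set.mem_iUnion.2 ⟨i, by
      simp only [F, hi]
      exact ⟨a1, hn, a2⟩⟩
    rw [← iUnion_disjointed] at this
    obtain ⟨i', hi'⟩ := Set.mem_iUnion.1 this
    exact Set.mem_iUnion.2 ⟨i', h, hi'⟩
  have h3 : ∀ i, A.P (Gd N ∩ cm ⁻¹' disjointed F i) ≤
      B.P (cm ⁻¹' (D ∩ disjointed F i) ∩ pv ⁻¹' E) := by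
    intro i
    rcases (Gd N ∩ cm ⁻¹' disjointed F i).eq_empty_or_nonempty with h0 | ⟨ω0, h0⟩
    · rw [h0, measure_empty]
      exact zero_le
    have hrN : r ≤ N := h0.1.1
    obtain ⟨-, hN, hball⟩ := disjointed_subset F i h0.2
    have := law_cell X nested e b0 (e i).1 (e i).2.2 ((ball d r).image (· - (e i).2.1))
      (by
        intro w hw
        obtain ⟨v, hv, rfl⟩ := Finset.mem_image.1 hw
        exact hball v ((mem_ball.1 hv).trans hrN))
      (E := sh (-(e i).2.1) ⁻¹' E) (measurable_sh _ hE)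
      (hdep.shift _ fun v hv => by
        simp only [Finset.coe_image, Set.mem_image]
        exact ⟨v, hv, by abel⟩)
      (D := sh (-(e i).2.1) ⁻¹' (D ∩ disjointed F i)) (measurable_sh _ (hD.inter (hF' i)))
    rw [← A.stat.pre (e i).2.1, ← B.stat.pre (e i).2.1] at this
    refine le_trans (measure_mono ?_) (this.trans (measure_mono ?_))
    · rintro ω ⟨⟨-, a2, a3, a4⟩, a5⟩
      refine ⟨⟨(disjointed_subset F i a5).1, ?_⟩, ?_, ?_⟩
      · simp only [Set.mem_preimage, cm_sh, sh_sh, neg_add_cancel, sh_zero]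
        exact ⟨a2, a5⟩
      · intro w hw
        obtain ⟨v, hv, rfl⟩ := Finset.mem_image.1 hw
        obtain ⟨s, b1, b2, b3, b4⟩ := a3 v hv
        simp only [sh_sh, sub_add_cancel]
        refine ⟨s, b1, b2, b3.trans_le hN, ?_⟩
        rw [← add_sub_assoc]
        exact hball _ b4
      · simp only [Set.mem_preimage, phi_sh, pv_sh, sh_sh, neg_add_cancel, sh_zero]
        exact a4
    · rintro ω ⟨⟨-, a2⟩, a3⟩
      simp only [Set.mem_preimage, cm_sh, pv_sh, sh_sh, neg_add_cancel, sh_zero] at a2 a3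
      exact ⟨a2, a3⟩
  calc A.P (Gd N) ≤ ∑' i, A.P (Gd N ∩ cm ⁻¹' disjointed F i) :=
        h2.trans (measure_iUnion_le _)
    _ ≤ ∑' i, B.P (cm ⁻¹' (D ∩ disjointed F i) ∩ pv ⁻¹' E) := ENNReal.tsum_le_tsum h3
    _ = B.P (⋃ i, cm ⁻¹' (D ∩ disjointed F i) ∩ pv ⁻¹' E) := by
        refine (measure_iUnion ?_ fun i =>
          (measurable_cm (hD.inter (hF' i))).inter (measurable_pv hE)).symm
        intro i j hij
        exact Set.disjoint_left.2 fun ω h h' =>
          Set.disjoint_left.1 (disjoint_disjointed F hij) h.1.2 h'.1.2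
    _ ≤ _ := measure_mono (Set.iUnion_subset fun i ω h => And.intro h.1.1 h.2)

theorem law [Countable T] (hc : H.Cov η) (X : Half A B R)
    (nested : ∀ n θ h j u θ' p q, η (H.ev n θ) ≠ 0 → H.th n h = some θ → j < n → u ∈ H.C θ →
      H.th j (sh u h) = some θ' → R n θ p q → R j θ' (sh u p) (sh u q))
    {e : ℕ → ℕ × G d × T} (he : Function.Surjective e) (b0 : LB) :
    A.P.map (phi X e b0) = B.P := by
  have hm := measurable_phi X e b0
  refine ext_cm_pv fun D E r hD hE hdep => ?_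
  have h1 : ∀ {E : Set (G d → LB)}, MeasurableSet E → Dep (ball d r : Set (G d)) E →
      A.P.map (phi X e b0) (cm ⁻¹' D ∩ pv ⁻¹' E) ≤ B.P (cm ⁻¹' D ∩ pv ⁻¹' E) := by
    intro E hE hdep
    rw [Measure.map_apply hm ((measurable_cm hD).inter (measurable_pv hE))]
    exact law_le hc X nested he b0 hE hdep hD
  have h2 := measure_inter_add_sdiff (μ := A.P.map (phi X e b0)) (cm ⁻¹' D) (measurable_pv hE)
  have h3 := measure_inter_add_sdiff (μ := B.P) (cm ⁻¹' D) (measurable_pv hE)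
  have h4 : A.P.map (phi X e b0) (cm ⁻¹' D) = B.P (cm ⁻¹' D) := by
    rw [Measure.map_apply hm (measurable_cm hD), B.P_cm hD, ← A.P_cm hD]
    rfl
  refine le_antisymm (h1 hE hdep) ?_
  have h5 : A.P.map (phi X e b0) (cm ⁻¹' D \ pv ⁻¹' E) ≤ B.P (cm ⁻¹' D \ pv ⁻¹' E) :=
    h1 hE.compl hdep.compl
  refine ENNReal.le_of_add_le_add_right (measure_ne_top B.P (cm ⁻¹' D \ pv ⁻¹' E)) ?_
  rw [h3, ← h4, ← h2]
  exact add_le_add_right h5 _

theorem inverse [Countable T] (hc : H.Cov η) (X : Half A B R)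
    (Y : Half B A fun n θ q p => R n θ p q)
    (R_loc : ∀ n θ p p' q q', (∀ v ∈ H.C θ, p v = p' v) → (∀ v ∈ H.C θ, q v = q' v) →
      R n θ p q → R n θ p' q')
    (nested : ∀ n θ h j u θ' p q, η (H.ev n θ) ≠ 0 → H.th n h = some θ → j < n → u ∈ H.C θ →
      H.th j (sh u h) = some θ' → R n θ p q → R j θ' (sh u p) (sh u q))
    {e : ℕ → ℕ × G d × T} (he : Function.Surjective e) (a0 : LA) (b0 : LB) :
    ∀ᵐ ω ∂A.P, phi Y e a0 (phi X e b0 ω) = ω := by
  classical
  have h0 : ∀ᵐ ω ∂A.P, out Y e a0 (phi X e b0 ω) = (ω 0).2 := by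
    have h1 := ae_cnd Y
    rw [← law hc X nested he b0] at h1
    filter_upwards [ae_of_ae_map (measurable_phi X e b0).aemeasurable h1, ae_out X he b0,
      A.ae_cm hc.ae_all, A.ae_cm (H.ae_pos A.eta_stat), A.ae_of_mu X.ne] with ω a1 a2 a3 a4 a5
    obtain ⟨⟨j, u', θ'⟩, ⟨b1, b2, b3⟩, b4⟩ := out_spec Y he a0 a1
    simp only [cm_phi] at b1 b2 b3
    choose c hc using a2
    obtain ⟨n, hn, u, θ, c1, c2⟩ := a3
      (nrm u' + (H.C θ').sup fun w => nrm ((c (w + u')).2.1 + (w + u')))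
      (j + 1 + (H.C θ').sup fun w => (c (w + u')).1 + 1)
    obtain ⟨q, hq⟩ := a5 n u θ c1
    have hpos := a4 n u θ c1
    have d1 : ∀ w ∈ H.C θ', sh (u' - u) q w = sh u' (pv (phi X e b0 ω)) w := by
      intro w hw
      have e1 := Finset.le_sup (f := fun w => nrm ((c (w + u')).2.1 + (w + u'))) hw
      have e2 := Finset.le_sup (f := fun w => (c (w + u')).1 + 1) hw
      have := key X nested (ω := sh u ω) (q := q) hpos c1 hq (v := w + u' - u) (s := c (w + u'))
        (by rw [sh_sh, sub_add_cancel]; exact (hc _).1) (by omega)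
        (by rw [← add_sub_assoc]; exact c2 _ (by omega))
      rw [sh_sh, sub_add_cancel, ← (hc _).2] at this
      rw [sh_apply, sh_apply, pv_phi, ← add_sub_assoc, this]
    have d2 := nested n θ _ j (u' - u) θ' _ q hpos c1 (by omega) (c2 _ (by omega))
      (by rw [sh_sh, sub_add_cancel]; exact b1) hq
    rw [sh_sh, sub_add_cancel] at d2
    have d3 := Y.sound j θ' (-u') _ _ (a4 j u' θ' b1) b2 b3
      (R_loc j θ' _ _ _ _ (fun _ _ => rfl) d1 d2)
    rw [b4]
    simp only [sh_apply, neg_add_cancel] at d3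
    exact d3.symm
  filter_upwards [A.stat.ae_all h0] with ω hω
  funext v
  have := hω v
  rw [phi_sh] at this
  refine Prod.ext rfl ?_
  show out Y e a0 (sh v (phi X e b0 ω)) = (ω v).2
  rw [this]
  simp

end Assembly

section Sides
variable {K T L F LA LB FA FB : Type} [MeasurableSpace K] [MeasurableSpace L]
  [MeasurableSpace LA] [MeasurableSpace LB] [Countable T] {H : Hier d K T}
  {η : Measure (G d → K)}

theorem assembly (hc : H.Cov η) (A : Side H η LA FA) (B : Side H η LB FB)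
    (R : ℕ → T → (G d → LA) → (G d → LB) → Prop)
    (R_loc : ∀ n θ p p' q q', (∀ v ∈ H.C θ, p v = p' v) → (∀ v ∈ H.C θ, q v = q' v) →
      R n θ p q → R n θ p' q')
    (nested : ∀ n θ h j u θ' p q, η (H.ev n θ) ≠ 0 → H.th n h = some θ → j < n → u ∈ H.C θ →
      H.th j (sh u h) = some θ' → R n θ p q → R j θ' (sh u p) (sh u q))
    (hAB : Half A B R) (hBA : Half B A fun n θ q p => R n θ p q) : FinIso A.P B.P := by
  obtain ⟨ω, s, -⟩ := (Assembly.ae_cnd hAB).exists
  obtain ⟨ω', -⟩ := (Assembly.ae_cnd hBA).exists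
  have : Nonempty (ℕ × G d × T) := ⟨s⟩
  obtain ⟨e, he⟩ := exists_surjective_nat (ℕ × G d × T)
  have nested' : ∀ n θ h j u θ' q p, η (H.ev n θ) ≠ 0 → H.th n h = some θ → j < n → u ∈ H.C θ →
      H.th j (sh u h) = some θ' → R n θ p q → R j θ' (sh u p) (sh u q) :=
    fun n θ h j u θ' q p => nested n θ h j u θ' p q
  exact ⟨Assembly.phi hAB e (ω' 0).2, Assembly.phi hBA e (ω 0).2,
    Assembly.measurable_phi _ _ _, Assembly.measurable_phi _ _ _,
    Assembly.phi_sh _ _ _, Assembly.phi_sh _ _ _,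
    Assembly.law hc hAB nested he _, Assembly.law hc hBA nested' he _,
    Assembly.inverse hc hAB hBA R_loc nested he _ _,
    Assembly.inverse hc hBA hAB (fun n θ q q' p p' h1 h2 => R_loc n θ p p' q q' h2 h1) nested'
      he _ _,
    Assembly.finitary_phi hAB he _, Assembly.finitary_phi hBA he _⟩

end Sides

end Pool.Agent.FDI
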