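import Pool.Agent.P.MP_1a5a6a_pr.Info

/-! Combinatorics of cells in a hierarchy. -/

set_option autoImplicit false

open MeasureTheory ProbabilityTheory Filter Topology
open scoped ENNReal

namespace Pool.Agent.FDI

variable {d : ℕ}

namespace Hier

variable {K T : Type} [MeasurableSpace K] (H : Hier d K T)

theorem zero_mem_C {n : ℕ} {h : G d → K} {θ : T} (hθ : H.th n h = some θ) : (0 : G d) ∈ H.C θ :=
  H.ballC n h θ hθ (zero_mem_ball _)

theorem nrm_le_of_Z {n : ℕ} {h : G d → K} {θ : T} (hθ : H.th n h = some θ) {v : G d}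
    (hv : v ∈ H.Z θ) : nrm v ≤ H.z n := mem_ball.1 (H.Zball n h θ hθ hv)

theorem nrm_le_of_C {n : ℕ} {h : G d → K} {θ : T} (hθ : H.th n h = some θ) {v : G d}
    (hv : v ∈ H.C θ) : nrm v ≤ H.z n := H.nrm_le_of_Z hθ (H.CZ θ hv)

theorem mem_C_of_nrm {n : ℕ} {h : G d → K} {θ : T} (hθ : H.th n h = some θ) {v : G d}
    (hv : nrm v ≤ H.a n) : v ∈ H.C θ := H.ballC n h θ hθ (mem_ball.2 hv)

theorem card_C_pos {n : ℕ} {h : G d → K} {θ : T} (hθ : H.th n h = some θ) : 0 < (H.C θ).card :=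
  Finset.card_pos.2 ⟨0, H.zero_mem_C hθ⟩

theorem measurableSet_ev (n : ℕ) (θ : T) : MeasurableSet (H.ev n θ) := H.meas n (some θ)

/-- A lower cell whose shadow meets the shadow of a higher cell lies inside it. -/
theorem nest_in {h : G d → K} {j n : ℕ} {u u' : G d} {θ θ' : T} (hj : j < n)
    (h1 : H.th j (sh u' h) = some θ') (h2 : H.th n (sh u h) = some θ) {v : G d}
    (hv' : v - u' ∈ H.Z θ') (hv : v - u ∈ H.Z θ) : ∀ w, w - u' ∈ H.Z θ' → w - u ∈ H.C θ := by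
  have h1' : H.th j (sh (u' - u) (sh u h)) = some θ' := by
    rw [sh_sh, sub_add_cancel]
    exact h1
  rcases H.nest_lt (sh u h) j n (u' - u) θ' θ hj h1' h2 with hc | hc
  · intro w hw
    have := hc _ hw
    rwa [show w - u' + (u' - u) = w - u by abel] at this
  · exfalso
    apply hc _ hv'
    rwa [show v - u' + (u' - u) = v - u by abel]

/-- Two cells of the same level whose shadows meet are equal. -/
theorem same_level {h : G d → K} {n : ℕ} {u u' : G d} {θ θ' : T}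
    (h1 : H.th n (sh u' h) = some θ') (h2 : H.th n (sh u h) = some θ) {v : G d}
    (hv' : v - u' ∈ H.Z θ') (hv : v - u ∈ H.Z θ) : u' = u ∧ θ' = θ := by
  have hu : u' = u := by
    by_contra hne
    have h1' : H.th n (sh (u' - u) (sh u h)) = some θ' := by
      rw [sh_sh, sub_add_cancel]
      exact h1
    apply H.nest_eq (sh u h) n (u' - u) θ' θ (sub_ne_zero.2 hne) h1' h2 _ hv'
    rwa [show v - u' + (u' - u) = v - u by abel]
  subst hu
  rw [h1] at h2
  exact ⟨rfl, Option.some.inj h2⟩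

theorem cov_unique {h : G d → K} {n : ℕ} {u u' : G d} {θ θ' : T}
    (h1 : H.th n (sh u' h) = some θ') (hu' : -u' ∈ H.C θ') (h2 : H.th n (sh u h) = some θ)
    (hu : -u ∈ H.C θ) : u' = u ∧ θ' = θ :=
  H.same_level h1 h2 (v := 0) (by simpa using H.CZ _ hu') (by simpa using H.CZ _ hu)

theorem cov_sh_iff {h : G d → K} {n : ℕ} {v : G d} :
    H.cov n (sh v h) ↔ ∃ u θ, H.th n (sh u h) = some θ ∧ v - u ∈ H.C θ := by
  constructor
  · rintro ⟨u, θ, h1, h2⟩
    refine ⟨u + v, θ, by rwa [sh_sh] at h1, ?_⟩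
    rwa [show v - (u + v) = -u by abel]
  · rintro ⟨u, θ, h1, h2⟩
    refine ⟨u - v, θ, by rw [sh_sh, sub_add_cancel]; exact h1, ?_⟩
    rwa [neg_sub]

theorem measurableSet_th_sh (n : ℕ) (u : G d) (θ : T) :
    MeasurableSet {h | H.th n (sh u h) = some θ} := measurable_sh u (H.meas n (some θ))

theorem measurableSet_cov [Countable T] (n : ℕ) : MeasurableSet {h | H.cov n h} := by
  have : {h | H.cov n h} = ⋃ u, ⋃ θ, {h | H.th n (sh u h) = some θ} ∩ {_h | -u ∈ H.C θ} := by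
    ext h
    simp [cov]
  rw [this]
  exact MeasurableSet.iUnion fun u => MeasurableSet.iUnion fun θ =>
    (H.measurableSet_th_sh n u θ).inter (MeasurableSet.const _)

theorem measurableSet_isMax [Countable T] (S : Set ℕ) (s : ℕ × G d × T) :
    MeasurableSet {h | H.IsMax S h s} := by
  have : {h | H.IsMax S h s} = {_h | s.1 ∈ S} ∩ ({h | H.th s.1 (sh s.2.1 h) = some s.2.2} ∩
      ⋂ j, {_h | j ∈ S ∧ s.1 < j}ᶜ ∪ (sh s.2.1 ⁻¹' {h | H.cov j h})ᶜ) := by
    ext h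
    simp only [IsMax, Set.mem_ofPred_eq, Set.mem_inter_iff, Set.mem_iInter, Set.mem_union,
      Set.mem_compl_iff, Set.mem_preimage]
    refine and_congr_right fun _ => and_congr_right fun _ => forall_congr' fun j => ?_
    tauto
  rw [this]
  exact (MeasurableSet.const _).inter ((H.measurableSet_th_sh _ _ _).inter
    (MeasurableSet.iInter fun j => (MeasurableSet.const _).compl.union
      (measurable_sh _ (H.measurableSet_cov j)).compl))

/-- Inside a cell, being covered by a lower level depends only on the type. -/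
theorem cov_congr {h h' : G d → K} {j n : ℕ} {θ : T} (hj : j < n) (h1 : H.th n h = some θ)
    (h2 : H.th n h' = some θ) {v : G d} (hv : v ∈ H.C θ) (hc : H.cov j (sh v h)) :
    H.cov j (sh v h') := by
  rw [cov_sh_iff] at hc ⊢
  obtain ⟨u, θ', e1, e2⟩ := hc
  have hu : u ∈ H.C θ := by
    have := H.nest_in (u := 0) hj e1 (by simpa using h1) (H.CZ _ e2) (by simpa using H.CZ _ hv) u
      (by simpa using H.CZ _ (H.zero_mem_C e1))
    simpa using this
  exact ⟨u, θ', by rw [← H.sub h h' j n u θ hj h1 h2 hu]; exact e1, e2⟩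

theorem subMax_iff {S : Set ℕ} {n : ℕ} (hS : ∀ j ∈ S, j < n) {h : G d → K} {θ : T}
    (hθ : H.th n h = some θ) {s : ℕ × G d × T} :
    H.SubMax S n θ s ↔ s.2.1 ∈ H.C θ ∧ H.IsMax S h s := by
  constructor
  · rintro ⟨hu, h', hθ', hs, e1, e2⟩
    refine ⟨hu, hs, ?_, fun j hj hlt hc => e2 j hj hlt ?_⟩
    · rw [H.sub h h' s.1 n s.2.1 θ (hS _ hs) hθ hθ' hu]
      exact e1
    · exact H.cov_congr (hS j hj) hθ hθ' hu hc
  · rintro ⟨hu, hs⟩
    exact ⟨hu, h, hθ, hs⟩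

theorem SubMax.th {S : Set ℕ} {n : ℕ} (hS : ∀ j ∈ S, j < n) {h : G d → K} {θ : T}
    (hθ : H.th n h = some θ) {s : ℕ × G d × T} (hs : H.SubMax S n θ s) :
    H.th s.1 (sh s.2.1 h) = some s.2.2 := ((H.subMax_iff hS hθ).1 hs).2.2.1

theorem SubMax.lt {S : Set ℕ} {n : ℕ} (hS : ∀ j ∈ S, j < n) {θ : T} {s : ℕ × G d × T}
    (hs : H.SubMax S n θ s) : s.1 < n := by
  obtain ⟨_, _, _, h, _⟩ := hs
  exact hS _ h

theorem subMax_finite {S : Set ℕ} {n : ℕ} (hS : ∀ j ∈ S, j < n) (θ : T) :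
    {s | H.SubMax S n θ s}.Finite := by
  by_cases hex : ∃ h, H.th n h = some θ
  · obtain ⟨h, hθ⟩ := hex
    refine Set.Finite.of_finite_image (f := fun s => (s.1, s.2.1)) ?_ ?_
    · refine ((Finset.range n) ×ˢ H.C θ).finite_toSet.subset ?_
      rintro _ ⟨s, hs, rfl⟩
      simp only [Finset.coe_product, Finset.coe_range, Set.mem_prod, Set.mem_Iio, Finset.mem_coe]
      exact ⟨SubMax.lt H hS hs, hs.1⟩
    · rintro ⟨j, u, θ1⟩ h1 ⟨j', u', θ2⟩ h2 he
      simp only [Prod.mk.injEq] at he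
      obtain ⟨rfl, rfl⟩ := he
      have e1 := SubMax.th H hS hθ h1
      have e2 := SubMax.th H hS hθ h2
      simp only at e1 e2
      rw [e1] at e2
      rw [Option.some.inj e2]
  · convert Set.finite_empty
    ext s
    simp only [Set.mem_ofPred_eq, Set.mem_empty_iff_false, iff_false]
    rintro ⟨_, h, hθ, _⟩
    exact hex ⟨h, hθ⟩

theorem SubMax.Z_sub {S : Set ℕ} {n : ℕ} (hS : ∀ j ∈ S, j < n) {θ : T} {s : ℕ × G d × T}
    (hs : H.SubMax S n θ s) : ∀ v ∈ H.Z s.2.2, v + s.2.1 ∈ H.C θ := by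
  obtain ⟨hu, h, hθ, hsS, e1, _⟩ := hs
  intro v hv
  have := H.nest_in (u := 0) (hS _ hsS) e1 (by simpa using hθ) (v := s.2.1)
    (by simpa using H.CZ _ (H.zero_mem_C e1)) (by simpa using H.CZ _ hu) (v + s.2.1)
    (by simpa using hv)
  simpa using this

theorem SubMax.C_sub {S : Set ℕ} {n : ℕ} (hS : ∀ j ∈ S, j < n) {θ : T} {s : ℕ × G d × T}
    (hs : H.SubMax S n θ s) : ∀ v ∈ H.C s.2.2, v + s.2.1 ∈ H.C θ :=
  fun v hv => SubMax.Z_sub H hS hs v (H.CZ _ hv)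

/-- Maximal cells have disjoint shadows. -/
theorem isMax_eq {S : Set ℕ} {h : G d → K} {s s' : ℕ × G d × T} (hs : H.IsMax S h s)
    (hs' : H.IsMax S h s') {v : G d} (hv : v - s.2.1 ∈ H.Z s.2.2) (hv' : v - s'.2.1 ∈ H.Z s'.2.2) :
    s = s' := by
  obtain ⟨j, u, θ⟩ := s
  obtain ⟨j', u', θ'⟩ := s'
  obtain ⟨a1, a2, a3⟩ := hs
  obtain ⟨b1, b2, b3⟩ := hs'
  simp only at a1 a2 a3 b1 b2 b3 hv hv'
  rcases lt_trichotomy j j' with hj | hj | hj
  · exfalso
    apply a3 j' b1 hj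
    rw [cov_sh_iff]
    exact ⟨u', θ', b2, H.nest_in hj a2 b2 hv hv' u (by simpa using H.CZ _ (H.zero_mem_C a2))⟩
  · subst hj
    obtain ⟨rfl, rfl⟩ := H.same_level a2 b2 hv hv'
    rfl
  · exfalso
    apply b3 j a1 hj
    rw [cov_sh_iff]
    exact ⟨u, θ, a2, H.nest_in hj b2 a2 hv' hv u' (by simpa using H.CZ _ (H.zero_mem_C b2))⟩

theorem subMax_eq {S : Set ℕ} {n : ℕ} (hS : ∀ j ∈ S, j < n) {θ : T} {s s' : ℕ × G d × T}
    (hs : H.SubMax S n θ s) (hs' : H.SubMax S n θ s') {v : G d} (hv : v - s.2.1 ∈ H.Z s.2.2)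
    (hv' : v - s'.2.1 ∈ H.Z s'.2.2) : s = s' := by
  obtain ⟨_, h, hθ, _⟩ := id hs
  exact H.isMax_eq ((H.subMax_iff hS hθ).1 hs).2 ((H.subMax_iff hS hθ).1 hs').2 hv hv'

/-- Every cell with level in a bounded set `S` is maximal or lies in a maximal cell. -/
theorem exists_isMax {S : Set ℕ} {n : ℕ} (hS : ∀ j ∈ S, j < n) {h : G d → K} {j : ℕ} {u : G d}
    {θ' : T} (hj : j ∈ S) (h1 : H.th j (sh u h) = some θ') :
    ∃ s, H.IsMax S h s ∧ (s = (j, u, θ') ∨ (j < s.1 ∧ u - s.2.1 ∈ H.C s.2.2)) := by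
  classical
  let A : Finset ℕ := (Finset.range n).filter fun i => i ∈ S ∧ H.cov i (sh u h)
  have hjA : j ∈ A := by
    simp only [A, Finset.mem_filter, Finset.mem_range]
    exact ⟨hS j hj, hj, H.cov_sh_iff.2 ⟨u, θ', h1, by simpa using H.zero_mem_C h1⟩⟩
  have hne : A.Nonempty := ⟨j, hjA⟩
  have hm := A.max'_mem hne
  simp only [A, Finset.mem_filter, Finset.mem_range] at hm
  obtain ⟨_, hmS, hmc⟩ := hm
  obtain ⟨u1, θ1, e1, e2⟩ := H.cov_sh_iff.1 hmc
  refine ⟨(A.max' hne, u1, θ1), ⟨hmS, e1, fun i hi hlt hc => ?_⟩, ?_⟩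
  · obtain ⟨u2, θ2, f1, f2⟩ := H.cov_sh_iff.1 hc
    have : i ∈ A := by
      simp only [A, Finset.mem_filter, Finset.mem_range]
      refine ⟨hS i hi, hi, H.cov_sh_iff.2 ⟨u2, θ2, f1, ?_⟩⟩
      exact H.nest_in hlt e1 f1 (v := u1) (by simpa using H.CZ _ (H.zero_mem_C e1)) (H.CZ _ f2) u
        (H.CZ _ e2)
    exact absurd (A.le_max' i this) (not_le.2 hlt)
  · rcases (A.le_max' j hjA).eq_or_lt with he | he
    · left
      have e1' : H.th j (sh u1 h) = some θ1 := by rw [he]; exact e1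
      obtain ⟨rfl, rfl⟩ := H.same_level e1' h1 (v := u) (H.CZ _ e2)
        (by simpa using H.CZ _ (H.zero_mem_C h1))
      rw [← he]
    · right
      exact ⟨he, e2⟩

theorem exists_subMax {S : Set ℕ} {n : ℕ} (hS : ∀ j ∈ S, j < n) {h : G d → K} {θ : T}
    (hθ : H.th n h = some θ) {j : ℕ} {u : G d} {θ' : T} (hj : j ∈ S) (hu : u ∈ H.C θ)
    (h1 : H.th j (sh u h) = some θ') :
    ∃ s, H.SubMax S n θ s ∧ (s = (j, u, θ') ∨ (j < s.1 ∧ u - s.2.1 ∈ H.C s.2.2)) := by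
  obtain ⟨s, hs, hor⟩ := H.exists_isMax hS hj h1
  refine ⟨s, ⟨?_, h, hθ, hs⟩, hor⟩
  rcases hor with rfl | ⟨_, hc⟩
  · exact hu
  · have := H.nest_in (u := 0) (hS _ hs.1) hs.2.1 (by simpa using hθ) (H.CZ _ hc)
      (by simpa using H.CZ _ hu) s.2.1 (by simpa using H.CZ _ (H.zero_mem_C hs.2.1))
    simpa using this

theorem ev_sub {h : G d → K} {j n : ℕ} {u : G d} {θ θ' : T} (hj : j < n)
    (hθ : H.th n h = some θ) (hu : u ∈ H.C θ) (h1 : H.th j (sh u h) = some θ') :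
    H.ev n θ ⊆ sh u ⁻¹' H.ev j θ' := by
  intro h' hh'
  show H.th j (sh u h') = some θ'
  rw [← H.sub h h' j n u θ hj hθ hh' hu]
  exact h1

theorem ev_pos_sub {η : Measure (G d → K)} (hη : Stat η) {h : G d → K} {j n : ℕ} {u : G d}
    {θ θ' : T} (hj : j < n) (hθ : H.th n h = some θ) (hu : u ∈ H.C θ)
    (h1 : H.th j (sh u h) = some θ') (hpos : η (H.ev n θ) ≠ 0) : η (H.ev j θ') ≠ 0 := by
  intro h0
  apply hpos
  rw [← hη.pre u] at h0
  exact measure_mono_null (H.ev_sub hj hθ hu h1) h0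

theorem SubMax.pos {η : Measure (G d → K)} (hη : Stat η) {S : Set ℕ} {n : ℕ}
    (hS : ∀ j ∈ S, j < n) {θ : T} {s : ℕ × G d × T} (hs : H.SubMax S n θ s)
    (hpos : η (H.ev n θ) ≠ 0) : η (H.ev s.1 s.2.2) ≠ 0 := by
  obtain ⟨hu, h, hθ, hm⟩ := hs
  exact H.ev_pos_sub hη (hS _ hm.1) hθ hu hm.2.1 hpos

/-- A relation that passes to maximal subcells passes to all subcells. -/
theorem nested_of_max {η : Measure (G d → K)} (hη : Stat η) {X Y : Type}
    (R : ℕ → T → (G d → X) → (G d → Y) → Prop)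
    (hR : ∀ n θ s p q, η (H.ev n θ) ≠ 0 → H.SubMax (Set.Iio n) n θ s → R n θ p q →
      R s.1 s.2.2 (sh s.2.1 p) (sh s.2.1 q)) :
    ∀ n θ h j u θ' p q, η (H.ev n θ) ≠ 0 → H.th n h = some θ → j < n → u ∈ H.C θ →
      H.th j (sh u h) = some θ' → R n θ p q → R j θ' (sh u p) (sh u q) := by
  intro n
  induction n using Nat.strong_induction_on with
  | _ n ih =>
    intro θ h j u θ' p q hpos hθ hj hu h1 hr
    have hS : ∀ j ∈ Set.Iio n, j < n := fun _ hj => hj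
    obtain ⟨s, hs, hor⟩ := H.exists_subMax hS hθ hj hu h1
    have hr' := hR n θ s p q hpos hs hr
    rcases hor with rfl | ⟨hlt, hc⟩
    · exact hr'
    · have := ih s.1 (SubMax.lt H hS hs) s.2.2 (sh s.2.1 h) j (u - s.2.1) θ' _ _
        (SubMax.pos H hη hS hs hpos) (SubMax.th H hS hθ hs) hlt hc
        (by rw [sh_sh, sub_add_cancel]; exact h1) hr'
      rwa [sh_sh, sh_sh, sub_add_cancel] at this

/-- The maximal subcells as a finite set. -/
noncomputable def subs (S : Set ℕ) (n : ℕ) (hS : ∀ j ∈ S, j < n) (θ : T) :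
    Finset (ℕ × G d × T) := (H.subMax_finite hS θ).toFinset

theorem mem_subs {S : Set ℕ} {n : ℕ} {hS : ∀ j ∈ S, j < n} {θ : T} {s : ℕ × G d × T} :
    s ∈ H.subs S n hS θ ↔ H.SubMax S n θ s := by
  simp [subs]

/-- Maximal subcells inside a set `J` have total size at most that of `J`. -/
theorem sum_card_le {S : Set ℕ} {n : ℕ} (hS : ∀ j ∈ S, j < n) {θ : T} (A : Finset (ℕ × G d × T))
    (hA : ∀ s ∈ A, H.SubMax S n θ s) (J : Finset (G d))
    (hJ : ∀ s ∈ A, ∀ v ∈ H.C s.2.2, v + s.2.1 ∈ J) : ∑ s ∈ A, (H.C s.2.2).card ≤ J.card := by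
  classical
  have h1 : ∑ s ∈ A, (H.C s.2.2).card = ∑ s ∈ A, ((H.C s.2.2).image (· + s.2.1)).card :=
    Finset.sum_congr rfl fun s _ =>
      (Finset.card_image_of_injective _ (add_left_injective _)).symm
  rw [h1, ← Finset.card_biUnion]
  · apply Finset.card_le_card
    intro v hv
    simp only [Finset.mem_biUnion, Finset.mem_image] at hv
    obtain ⟨s, hs, w, hw, rfl⟩ := hv
    exact hJ s hs w hw
  · intro s hs s' hs' hne
    rw [Function.onFun, Finset.disjoint_left]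
    intro v hv hv'
    simp only [Finset.mem_image] at hv hv'
    obtain ⟨w, hw, rfl⟩ := hv
    obtain ⟨w', hw', he⟩ := hv'
    apply hne
    refine H.subMax_eq hS (hA s hs) (hA s' hs') (v := w + s.2.1) (by simpa using H.CZ _ hw) ?_
    rw [← he]
    simpa using H.CZ _ hw'

theorem cov_reindex {η : Measure (G d → K)} (hc : H.Cov η) (f : ℕ → ℕ) (hf : StrictMono f) :
    (H.reindex f hf).Cov η := by
  intro r N hN
  filter_upwards [hc r (f '' N) (hN.image hf.injective.injOn)] with h hh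
  obtain ⟨_, ⟨n, hn, rfl⟩, u, θ, h1, h2⟩ := hh
  exact ⟨n, hn, u, θ, h1, h2⟩

theorem cov_comap {K' : Type} [MeasurableSpace K'] {μ : Measure (G d → K')}
    (π : (G d → K') → (G d → K)) (hπ : Measurable π) (hs : ∀ a y, π (sh a y) = sh a (π y))
    (hl : ∀ n, ∃ ρ : ℕ, ∀ y y', (∀ v, nrm v ≤ ρ → y v = y' v) → H.th n (π y) = H.th n (π y'))
    (hc : H.Cov (μ.map π)) : (H.comap π hπ hs hl).Cov μ := by
  intro r N hN
  filter_upwards [ae_of_ae_map hπ.aemeasurable (hc r N hN)] with y hy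
  obtain ⟨n, hn, u, θ, h1, h2⟩ := hy
  exact ⟨n, hn, u, θ, by show H.th n (π (sh u y)) = _; rw [hs]; exact h1, h2⟩

/-- Almost surely every cell that occurs has a type of positive probability. -/
theorem ae_pos [Countable T] {η : Measure (G d → K)} (hη : Stat η) :
    ∀ᵐ h ∂η, ∀ n u θ, H.th n (sh u h) = some θ → η (H.ev n θ) ≠ 0 := by
  rw [ae_all_iff]
  intro n
  rw [ae_all_iff]
  intro u
  rw [ae_all_iff]
  intro θ
  by_cases h0 : η (H.ev n θ) = 0
  · rw [← hη.pre u] at h0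
    filter_upwards [measure_eq_zero_iff_ae_notMem.1 h0] with h hh h1
    exact absurd h1 hh
  · exact Eventually.of_forall fun _ _ => h0

/-- Almost surely every ball lies in cells of arbitrarily high level. -/
theorem Cov.ae_all {η : Measure (G d → K)} (hc : H.Cov η) :
    ∀ᵐ h ∂η, ∀ r m : ℕ, ∃ n, m ≤ n ∧ ∃ u θ, H.th n (sh u h) = some θ ∧
      ∀ v, nrm v ≤ r → v - u ∈ H.C θ := by
  rw [ae_all_iff]
  intro r
  rw [ae_all_iff]
  intro m
  filter_upwards [hc r (Set.Ici m) (Set.Ici_infinite m)] with h hh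
  obtain ⟨n, hn, h1⟩ := hh
  exact ⟨n, hn, h1⟩

end Hier

end Pool.Agent.FDI
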