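import Mathlib

/-! Definitions for the finitary isomorphism theorem for finitely dependent fields on the lattice. -/

set_option autoImplicit false

open MeasureTheory ProbabilityTheory Filter Topology
open scoped ENNReal

namespace Pool.Agent.FDI

/-- Lattice points. -/
abbrev G (d : ℕ) : Type := Fin d → ℤ

variable {d : ℕ}

/-- Sup norm with values in the naturals. -/
def nrm (v : G d) : ℕ := Finset.univ.sup fun c => (v c).natAbs

/-- Ball of radius `r` about the origin. -/
noncomputable def ball (d r : ℕ) : Finset (G d) := Fintype.piFinset fun _ => Finset.Icc (-(r : ℤ)) r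

/-- Shift of a configuration. -/
def sh {A : Type} (a : G d) (x : G d → A) : G d → A := fun v => x (v + a)

theorem nrm_le_iff {v : G d} {r : ℕ} : nrm v ≤ r ↔ ∀ c, -(r : ℤ) ≤ v c ∧ v c ≤ r := by
  unfold nrm
  rw [Finset.sup_le_iff]
  constructor
  · intro h c
    have := h c (Finset.mem_univ _)
    omega
  · intro h c _
    have := h c
    omega

theorem mem_ball {v : G d} {r : ℕ} : v ∈ ball d r ↔ nrm v ≤ r := by
  rw [nrm_le_iff]
  simp [ball, Fintype.mem_piFinset]

theorem card_ball (r : ℕ) : (ball d r).card = (2 * r + 1) ^ d := by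
  rw [ball, Fintype.card_piFinset]
  simp only [Int.card_Icc, Finset.prod_const, Finset.card_univ, Fintype.card_fin]
  congr 1
  omega

theorem ball_mono {r s : ℕ} (h : r ≤ s) : ball d r ⊆ ball d s := fun _ hv =>
  mem_ball.2 ((mem_ball.1 hv).trans h)

theorem abs_le_nrm (v : G d) (c : Fin d) : -(nrm v : ℤ) ≤ v c ∧ v c ≤ nrm v :=
  nrm_le_iff.1 le_rfl c

@[simp] theorem nrm_zero : nrm (0 : G d) = 0 := by
  apply Nat.eq_zero_of_le_zero
  rw [nrm_le_iff]
  intro c
  simp

theorem nrm_eq_zero {v : G d} : nrm v = 0 ↔ v = 0 := by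
  constructor
  · intro h
    funext c
    have := abs_le_nrm v c
    rw [h] at this
    simp only [Pi.zero_apply]
    omega
  · rintro rfl
    simp

@[simp] theorem nrm_neg (v : G d) : nrm (-v) = nrm v := by
  simp [nrm]

theorem nrm_sub_comm (u v : G d) : nrm (u - v) = nrm (v - u) := by
  rw [← nrm_neg, neg_sub]

theorem nrm_add_le (u v : G d) : nrm (u + v) ≤ nrm u + nrm v := by
  rw [nrm_le_iff]
  intro c
  have h1 := abs_le_nrm u c
  have h2 := abs_le_nrm v c
  simp only [Pi.add_apply]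
  push_cast
  omega

theorem nrm_sub_le (u v : G d) : nrm (u - v) ≤ nrm u + nrm v := by
  have := nrm_add_le u (-v)
  rwa [nrm_neg, ← sub_eq_add_neg] at this

theorem nrm_triangle (u v w : G d) : nrm (u - w) ≤ nrm (u - v) + nrm (v - w) := by
  have := nrm_add_le (u - v) (v - w)
  rwa [sub_add_sub_cancel] at this

theorem zero_mem_ball (r : ℕ) : (0 : G d) ∈ ball d r := mem_ball.2 (by simp)

theorem norm_le_iff_nrm {v : G d} {r : ℕ} : ‖v‖ ≤ (r : ℝ) ↔ nrm v ≤ r := by
  rw [nrm_le_iff, pi_norm_le_iff_of_nonneg (Nat.cast_nonneg r)]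
  refine forall_congr' fun c => ?_
  rw [Int.norm_eq_abs, ← Int.cast_abs, ← Int.cast_natCast, Int.cast_le, abs_le]

@[simp] theorem sh_apply {A : Type} (a : G d) (x : G d → A) (v : G d) : sh a x v = x (v + a) := rfl

@[simp] theorem sh_zero {A : Type} (x : G d → A) : sh 0 x = x := by
  funext v
  simp

theorem sh_sh {A : Type} (a b : G d) (x : G d → A) : sh a (sh b x) = sh (a + b) x := by
  funext v
  simp [add_assoc]

theorem measurable_sh {A : Type} [MeasurableSpace A] (a : G d) :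
    Measurable (sh a : (G d → A) → (G d → A)) :=
  measurable_pi_lambda _ fun v => measurable_pi_apply (v + a)

/-- Stationarity. -/
def Stat {A : Type} [MeasurableSpace A] (μ : Measure (G d → A)) : Prop :=
  ∀ a : G d, μ.map (sh a) = μ

theorem Stat.pre {A : Type} [MeasurableSpace A] {μ : Measure (G d → A)} (h : Stat μ) (a : G d)
    (E : Set (G d → A)) : μ (sh a ⁻¹' E) = μ E := by
  apply le_antisymm
  · conv_rhs => rw [← h a]
    exact Measure.le_map_apply (measurable_sh a).aemeasurable E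
  · have h2 : E = sh (-a) ⁻¹' (sh a ⁻¹' E) := by
      ext x
      simp [sh_sh]
    conv_lhs => rw [h2]
    conv_rhs => rw [← h (-a)]
    exact Measure.le_map_apply (measurable_sh (-a)).aemeasurable _

theorem Stat.ae_all {A : Type} [MeasurableSpace A] {μ : Measure (G d → A)} (h : Stat μ)
    {p : (G d → A) → Prop} (hp : ∀ᵐ x ∂μ, p x) : ∀ᵐ x ∂μ, ∀ a : G d, p (sh a x) := by
  rw [ae_all_iff]
  intro a
  rw [ae_iff] at hp ⊢
  exact (h.pre a {x | ¬ p x}).trans hp

/-- The event `E` depends only on the coordinates in `U`. -/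
def Dep {A : Type} (U : Set (G d)) (E : Set (G d → A)) : Prop :=
  ∀ x x' : G d → A, (∀ v ∈ U, x v = x' v) → x ∈ E → x' ∈ E

/-- `k`-dependence, in terms of events. -/
def KDep {A : Type} [MeasurableSpace A] (k : ℕ) (μ : Measure (G d → A)) : Prop :=
  ∀ U V : Set (G d), (∀ u ∈ U, ∀ v ∈ V, k < nrm (u - v)) →
    ∀ E F : Set (G d → A), MeasurableSet E → MeasurableSet F → Dep U E → Dep V F →
      μ (E ∩ F) = μ E * μ F

/-- The value of `φ` at the origin is almost surely determined by a finite window. -/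
def Finitary {A B : Type} [MeasurableSpace A] (μ : Measure (G d → A))
    (φ : (G d → A) → (G d → B)) : Prop :=
  ∀ᵐ x ∂μ, ∃ r : ℕ, ∀ x' : G d → A, (∀ v, nrm v ≤ r → x' v = x v) → φ x' 0 = φ x 0

/-- Finitary isomorphism. -/
def FinIso {A B : Type} [MeasurableSpace A] [MeasurableSpace B] (μ : Measure (G d → A))
    (ν : Measure (G d → B)) : Prop :=
  ∃ (φ : (G d → A) → (G d → B)) (ψ : (G d → B) → (G d → A)),
    Measurable φ ∧ Measurable ψ ∧
    (∀ a x, φ (sh a x) = sh a (φ x)) ∧ (∀ a y, ψ (sh a y) = sh a (ψ y)) ∧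
    μ.map φ = ν ∧ ν.map ψ = μ ∧
    (∀ᵐ x ∂μ, ψ (φ x) = x) ∧ (∀ᵐ y ∂ν, φ (ψ y) = y) ∧
    Finitary μ φ ∧ Finitary ν ψ

/-- The i.i.d. field with marginal `ν`. -/
noncomputable def iid (d : ℕ) {A : Type} [MeasurableSpace A] (ν : Measure A) :
    Measure (G d → A) :=
  Measure.infinitePi fun _ : G d => ν

/-- Common part of a configuration of pairs. -/
def cm {K L : Type} (ω : G d → K × L) : G d → K := fun v => (ω v).1

/-- Private part of a configuration of pairs. -/
def pv {K L : Type} (ω : G d → K × L) : G d → L := fun v => (ω v).2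

/-- Two configurations put together site by site. -/
def zp {K L : Type} (x : (G d → K) × (G d → L)) : G d → K × L := fun v => (x.1 v, x.2 v)

theorem measurable_cm {K L : Type} [MeasurableSpace K] [MeasurableSpace L] :
    Measurable (cm : (G d → K × L) → (G d → K)) :=
  measurable_pi_lambda _ fun v => (measurable_pi_apply v).fst

theorem measurable_pv {K L : Type} [MeasurableSpace K] [MeasurableSpace L] :
    Measurable (pv : (G d → K × L) → (G d → L)) :=
  measurable_pi_lambda _ fun v => (measurable_pi_apply v).snd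

theorem measurable_zp {K L : Type} [MeasurableSpace K] [MeasurableSpace L] :
    Measurable (zp : (G d → K) × (G d → L) → (G d → K × L)) :=
  measurable_pi_lambda _ fun v =>
    ((measurable_pi_apply v).comp measurable_fst).prodMk
      ((measurable_pi_apply v).comp measurable_snd)

theorem cm_sh {K L : Type} (a : G d) (ω : G d → K × L) : cm (sh a ω) = sh a (cm ω) := rfl

theorem pv_sh {K L : Type} (a : G d) (ω : G d → K × L) : pv (sh a ω) = sh a (pv ω) := rfl

/-- Keep the coordinates in `U`, put `l0` elsewhere. -/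
noncomputable def mask {L : Type} (l0 : L) (U : Finset (G d)) (p : G d → L) : G d → L :=
  fun v => if v ∈ U then p v else l0

/-- The raw filler: the configuration on `J`. -/
noncomputable def rawW {L : Type} (J : Finset (G d)) (p : G d → L) : G d → Option L :=
  fun v => if v ∈ J then some (p v) else none

/-- A hierarchy of cells read off a configuration with values in `K`.  `th n h = some θ` means
that the origin is the anchor of a cell of level `n` and type `θ`; the cell is `C θ`, its shadow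
(cell plus surrounding gap) is `Z θ`. -/
structure Hier (d : ℕ) (K : Type) [MeasurableSpace K] (T : Type) where
  th : ℕ → (G d → K) → Option T
  C : T → Finset (G d)
  Z : T → Finset (G d)
  a : ℕ → ℕ
  z : ℕ → ℕ
  meas : ∀ n t, MeasurableSet {h | th n h = t}
  loc : ∀ n, ∃ ρ : ℕ, ∀ h h', (∀ v, nrm v ≤ ρ → h v = h' v) → th n h = th n h'
  ballC : ∀ n h θ, th n h = some θ → ball d (a n) ⊆ C θ
  CZ : ∀ θ, C θ ⊆ Z θ
  Zball : ∀ n h θ, th n h = some θ → Z θ ⊆ ball d (z n)
  nest_lt : ∀ h j n u θ' θ, j < n → th j (sh u h) = some θ' → th n h = some θ →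
    (∀ v ∈ Z θ', v + u ∈ C θ) ∨ (∀ v ∈ Z θ', v + u ∉ Z θ)
  nest_eq : ∀ h n u θ' θ, u ≠ 0 → th n (sh u h) = some θ' → th n h = some θ →
    ∀ v ∈ Z θ', v + u ∉ Z θ
  anch : ∀ h j n u θ' θ, j < n → th j (sh u h) = some θ' → th n h = some θ → -u ∉ Z θ'
  sub : ∀ h h' j n u θ, j < n → th n h = some θ → th n h' = some θ → u ∈ C θ →
    th j (sh u h) = th j (sh u h')
  a_top : Tendsto a atTop atTop
  za : Tendsto (fun n => (z n : ℝ) / (a n : ℝ)) atTop (𝓝 1)

namespace Hier

variable {K T : Type} [MeasurableSpace K] (H : Hier d K T)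

/-- The event that the origin is the anchor of a level `n` cell of type `θ`. -/
def ev (n : ℕ) (θ : T) : Set (G d → K) := {h | H.th n h = some θ}

/-- The origin lies in a cell of level `n`. -/
def cov (n : ℕ) (h : G d → K) : Prop := ∃ u θ, H.th n (sh u h) = some θ ∧ -u ∈ H.C θ

/-- Cells are separated from the complement of their shadow. -/
def Sep (k : ℕ) : Prop := ∀ θ, ∀ v ∈ H.C θ, ∀ w, w ∉ H.Z θ → k < nrm (v - w)

/-- Along every infinite set of levels every ball is almost surely swallowed by a cell. -/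
def Cov (η : Measure (G d → K)) : Prop :=
  ∀ (r : ℕ) (N : Set ℕ), N.Infinite →
    ∀ᵐ h ∂η, ∃ n ∈ N, ∃ u θ, H.th n (sh u h) = some θ ∧ ∀ v, nrm v ≤ r → v - u ∈ H.C θ

/-- `h` and `h'` carry the same cells of level at most `m` anchored in the ball of radius `m`. -/
def Near (m : ℕ) (h h' : G d → K) : Prop :=
  ∀ j ≤ m, ∀ u, nrm u ≤ m → H.th j (sh u h) = H.th j (sh u h')

/-- Events read off nearby cells are independent at large distance. -/
def MixC (η : Measure (G d → K)) : Prop :=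
  ∀ m : ℕ, ∃ ρ : ℕ, ∀ v : G d, ρ < nrm v → ∀ E E' : Set (G d → K),
    MeasurableSet E → MeasurableSet E' →
    (∀ h h', H.Near m h h' → h ∈ E → h' ∈ E) → (∀ h h', H.Near m h h' → h ∈ E' → h' ∈ E') →
    η (E ∩ sh v ⁻¹' E') = η E * η E'

/-- `s = (j, u, θ')` is a cell of `h` with level in `S` that no higher level in `S` covers. -/
def IsMax (S : Set ℕ) (h : G d → K) (s : ℕ × G d × T) : Prop :=
  s.1 ∈ S ∧ H.th s.1 (sh s.2.1 h) = some s.2.2 ∧
    ∀ j ∈ S, s.1 < j → ¬ H.cov j (sh s.2.1 h)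

/-- `s` is a maximal `S`-cell inside the cell of level `n` and type `θ`. -/
def SubMax (S : Set ℕ) (n : ℕ) (θ : T) (s : ℕ × G d × T) : Prop :=
  s.2.1 ∈ H.C θ ∧ ∃ h, H.th n h = some θ ∧ H.IsMax S h s

/-- Passing to a subsequence of levels. -/
def reindex (f : ℕ → ℕ) (hf : StrictMono f) : Hier d K T where
  th n := H.th (f n)
  C := H.C
  Z := H.Z
  a n := H.a (f n)
  z n := H.z (f n)
  meas n := H.meas (f n)
  loc n := H.loc (f n)
  ballC n := H.ballC (f n)
  CZ := H.CZ
  Zball n := H.Zball (f n)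
  nest_lt h j n u θ' θ hj := H.nest_lt h (f j) (f n) u θ' θ (hf hj)
  nest_eq h n := H.nest_eq h (f n)
  anch h j n u θ' θ hj := H.anch h (f j) (f n) u θ' θ (hf hj)
  sub h h' j n u θ hj := H.sub h h' (f j) (f n) u θ (hf hj)
  a_top := H.a_top.comp hf.tendsto_atTop
  za := H.za.comp hf.tendsto_atTop

/-- Pull back along an equivariant map along which every level stays local. -/
def comap {K' : Type} [MeasurableSpace K'] (π : (G d → K') → (G d → K)) (hπ : Measurable π)
    (hs : ∀ a y, π (sh a y) = sh a (π y))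
    (hl : ∀ n, ∃ ρ : ℕ, ∀ y y', (∀ v, nrm v ≤ ρ → y v = y' v) → H.th n (π y) = H.th n (π y')) :
    Hier d K' T where
  th n y := H.th n (π y)
  C := H.C
  Z := H.Z
  a := H.a
  z := H.z
  meas n t := hπ (H.meas n t)
  loc := hl
  ballC n y := H.ballC n (π y)
  CZ := H.CZ
  Zball n y := H.Zball n (π y)
  nest_lt y j n u θ' θ hj h1 := H.nest_lt (π y) j n u θ' θ hj (by rw [← hs]; exact h1)
  nest_eq y n u θ' θ hu h1 := H.nest_eq (π y) n u θ' θ hu (by rw [← hs]; exact h1)
  anch y j n u θ' θ hj h1 := H.anch (π y) j n u θ' θ hj (by rw [← hs]; exact h1)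
  sub y y' j n u θ hj h1 h2 hu := by
    rw [hs, hs]
    exact H.sub (π y) (π y') j n u θ hj h1 h2 hu
  a_top := H.a_top
  za := H.za

end Hier

/-- Law of the private part given that the origin anchors a level `n` cell of type `θ`. -/
noncomputable def condLaw {K T L : Type} [MeasurableSpace K] [MeasurableSpace L]
    (H : Hier d K T) (P : Measure (G d → K × L)) (n : ℕ) (θ : T) : Measure (G d → L) :=
  (P[| cm ⁻¹' H.ev n θ]).map pv

/-- `E` is a union of classes of the filler `W J`. -/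
def Sat {L F : Type} (W : Finset (G d) → (G d → L) → F) (J : Finset (G d))
    (E : Set (G d → L)) : Prop :=
  ∀ p p', W J p = W J p' → p ∈ E → p' ∈ E

/-- One side of a coding relative to the common factor with law `η`. -/
structure Side {K T : Type} [MeasurableSpace K] (H : Hier d K T) (η : Measure (G d → K))
    (L : Type) [MeasurableSpace L] (F : Type) where
  P : Measure (G d → K × L)
  prob : IsProbabilityMeasure P
  stat : Stat P
  marg : P.map cm = η
  W : Finset (G d) → (G d → L) → F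
  W_loc : ∀ J p p', (∀ v ∈ J, p v = p' v) → W J p = W J p'
  W_mono : ∀ J J' u p p', (∀ v ∈ J, v + u ∈ J') → W J' p = W J' p' →
    W J (sh u p) = W J (sh u p')
  indep : ∀ n θ (J : Finset (G d)) (E E' : Set (G d → L)) (D : Set (G d → K)),
    MeasurableSet E → MeasurableSet E' → MeasurableSet D → Sat W (H.C θ) E →
    (∀ v ∈ J, v ∉ H.Z θ) → Sat W J E' →
    P (cm ⁻¹' (H.ev n θ ∩ D) ∩ pv ⁻¹' (E ∩ E')) =
      condLaw H P n θ E * P (cm ⁻¹' (H.ev n θ ∩ D) ∩ pv ⁻¹' E')
  raw : ∀ n θ (E : Set (G d → L)) (D : Set (G d → K)),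
    MeasurableSet E → MeasurableSet D → Dep (H.C θ : Set (G d)) E →
    P (cm ⁻¹' (H.ev n θ ∩ D) ∩ pv ⁻¹' E) = condLaw H P n θ E * η (H.ev n θ ∩ D)

/-- Information of a probability. -/
noncomputable def info (x : ℝ≥0∞) : ℝ≥0∞ :=
  if x = 0 then ⊤ else ENNReal.ofReal (-Real.log x.toReal)

/-- Shannon entropy of a measure on the naturals. -/
noncomputable def ent (ν : Measure ℕ) : ℝ≥0∞ := ∫⁻ i, info (ν {i}) ∂ν

namespace Side

variable {K T L F : Type} [MeasurableSpace K] [MeasurableSpace L] {H : Hier d K T}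
  {η : Measure (G d → K)} (S : Side H η L F)

/-- Conditional law of the private part on a cell. -/
noncomputable def mu (n : ℕ) (θ : T) : Measure (G d → L) := condLaw H S.P n θ

/-- The class of `p` for the filler on `J`. -/
def cls (J : Finset (G d)) (p : G d → L) : Set (G d → L) := {p' | S.W J p' = S.W J p}

/-- Weight of an event seen from the anchors of level `n`, each counted with the size of its
cell. -/
noncomputable def wt (n : ℕ) (B : Set (G d → K × L)) : ℝ≥0∞ :=
  ∑' θ : T, ((H.C θ).card : ℝ≥0∞) * S.P (cm ⁻¹' H.ev n θ ∩ B)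

/-- Same cells nearby and same filler on the ball of radius `m`. -/
def Near (m : ℕ) (ω ω' : G d → K × L) : Prop :=
  H.Near m (cm ω) (cm ω') ∧ S.W (ball d m) (pv ω) = S.W (ball d m) (pv ω')

/-- Local events are independent at large distance. -/
def Mix : Prop :=
  ∀ m : ℕ, ∃ ρ : ℕ, ∀ v : G d, ρ < nrm v → ∀ E E' : Set (G d → K × L),
    MeasurableSet E → MeasurableSet E' →
    (∀ ω ω', S.Near m ω ω' → ω ∈ E → ω' ∈ E) → (∀ ω ω', S.Near m ω ω' → ω ∈ E' → ω' ∈ E') →
    S.P (E ∩ sh v ⁻¹' E') = S.P E * S.P E'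

/-- Countably many measurable classes, which determine the private value in the limit. -/
structure Disc : Prop where
  count : ∀ J, (Set.range (S.W J)).Countable
  meas : ∀ J p, MeasurableSet (S.cls J p)
  complete : ∀ᵐ ω ∂S.P, ∃ r : ℕ, ∀ p', S.W (ball d r) p' = S.W (ball d r) (pv ω) → p' 0 = pv ω 0

/-- The information on balls inside large cells is approximated by sums of a local function
with mean close to `hh`. -/
def Approx (hh : ℝ≥0∞) : Prop :=
  ∀ ε : ℝ, 0 < ε → ∀ c : ℝ≥0∞, c < hh →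
    ∃ (f : (G d → K × L) → ℝ≥0∞) (m D n1 : ℕ), Measurable f ∧
      (∀ ω ω', S.Near m ω ω' → f ω = f ω') ∧ c < ∫⁻ ω, f ω ∂S.P ∧ ∫⁻ ω, f ω ∂S.P ≤ hh ∧
      ∀ n ≥ n1,
        (∀ ω θ t, H.th n (cm ω) = some θ → η (H.ev n θ) ≠ 0 → t + D ≤ H.a n →
          ∑ v ∈ ball d t, f (sh v ω) ≤ info (S.mu n θ (S.cls (ball d (t + D)) (pv ω)))) ∧
        (hh ≠ ⊤ → S.wt n {ω | ∃ θ t, H.th n (cm ω) = some θ ∧ t + D ≤ H.a n ∧
          ∑ v ∈ ball d (t + D), f (sh v ω) + ENNReal.ofReal ε * ((H.C θ).card : ℝ≥0∞) <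
            info (S.mu n θ (S.cls (ball d t) (pv ω)))} ≤ ENNReal.ofReal ε)

/-- The facts about level `n` used in one step of the discrete coding. -/
def StepOK (n : ℕ) (c' c'' ε : ℝ) (D : ℕ) : Prop :=
  ∃ (c1 c : ℝ) (t : ℕ), D ≤ t ∧ t + D ≤ H.a n ∧
    (∀ h θ, H.th n h = some θ →
      Real.exp ((c' - c1) * (H.C θ).card) ≤ ε ∧
      Real.exp (c * (H.C θ).card) + Real.exp (c' * (H.C θ).card) ≤
        Real.exp (c'' * (H.C θ).card) ∧
      ((H.C θ).card : ℝ) - (ball d (t - D)).card ≤ ε * (H.C θ).card) ∧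
    S.wt n {ω | ∃ θ, H.th n (cm ω) = some θ ∧
      ENNReal.ofReal (Real.exp (-(c1 * (H.C θ).card))) <
        S.mu n θ (S.cls (ball d t) (pv ω))} ≤ ENNReal.ofReal ε ∧
    S.wt n {ω | ∃ θ, H.th n (cm ω) = some θ ∧
      S.mu n θ (S.cls (ball d (t + D)) (pv ω)) <
        ENNReal.ofReal (Real.exp (-(c * (H.C θ).card) +
          c' * (((H.C θ).card : ℝ) - (ball d t).card)) / ε)} ≤ ENNReal.ofReal ε

/-- Steps are available at arbitrarily high levels with rates below `hh`. -/
def Steps (hh : ℝ≥0∞) : Prop :=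
  ∀ c' : ℝ, 0 ≤ c' → ENNReal.ofReal c' < hh → ∀ ε : ℝ, 0 < ε → ∀ D n0 : ℕ,
    ∃ n ≥ n0, ∃ c'' : ℝ, c' ≤ c'' ∧ ENNReal.ofReal c'' < hh ∧ S.StepOK n c' c'' ε D

/-- Given the cell type and the private values on lower cells, the value at the anchor has no
atoms. -/
def NoAtom : Prop :=
  ∀ n θ, η (H.ev n θ) ≠ 0 → ∀ (l0 : L) (U : Finset (G d)),
    (∀ v ∈ U, ∃ j u θ' h, j < n ∧ H.th n h = some θ ∧ H.th j (sh u h) = some θ' ∧
      v - u ∈ H.C θ') →
    ∀ Y : Set ((G d → L) × L), MeasurableSet Y → (∀ p, {s | (p, s) ∈ Y}.Countable) →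
      S.mu n θ {p | (mask l0 U p, p 0) ∈ Y} = 0

/-- The same side for a subsequence of levels. -/
def reindex (f : ℕ → ℕ) (hf : StrictMono f) : Side (H.reindex f hf) η L F where
  P := S.P
  prob := S.prob
  stat := S.stat
  marg := S.marg
  W := S.W
  W_loc := S.W_loc
  W_mono := S.W_mono
  indep n := S.indep (f n)
  raw n := S.raw (f n)

end Side

/-- One level of the record stored at a site. -/
abbrev Item (d : ℕ) : Type := Bool × Bool × Option (Finset (G d))

instance : MeasurableSpace (Option (Finset (G d))) := ⊤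

instance : DiscreteMeasurableSpace (Option (Finset (G d))) := ⟨fun _ => trivial⟩

/-- The record stored at a site: once the first flag is off, all later items are empty. -/
abbrev Rec (d : ℕ) : Type :=
  {ξ : ℕ → Item d // ∀ j, (ξ j).1 = false → ξ (j + 1) = (false, false, none)}

/-- Cell types. -/
abbrev CT (d : ℕ) : Type := ℕ × Finset (G d) × List (Item d)

/-- The hierarchy built from a binary field, with insensitive gaps. -/
structure Pack (d k : ℕ) (μ : Measure (G d → Bool)) where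
  H : Hier d (Rec d) (CT d)
  Hm : (G d → Bool) → (G d → Rec d)
  rng : ℕ → ℕ
  meas : Measurable Hm
  equiv : ∀ a ι, Hm (sh a ι) = sh a (Hm ι)
  rng_mono : StrictMono rng
  item_loc : ∀ j ι ι', (∀ v, nrm v ≤ rng j → ι v = ι' v) → (Hm ι 0).1 j = (Hm ι' 0).1 j
  th_items : ∀ n, ∃ ρ : ℕ, ∀ h h' : G d → Rec d,
    (∀ v, nrm v ≤ ρ → ∀ j ≤ n, (h v).1 j = (h' v).1 j) → H.th n h = H.th n h'
  sep : H.Sep k
  gap : ∀ n h θ, H.th n h = some θ → ∃ g, ∀ v, nrm (v - g) ≤ k → v ∈ H.Z θ ∧ v ∉ H.C θ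
  splice : ∀ n ι ι' ι'' θ, H.th n (Hm ι) = some θ → H.th n (Hm ι') = some θ →
    (∀ v ∈ H.C θ, ι'' v = ι v) → (∀ v, v ∉ H.Z θ → ι'' v = ι' v) → Hm ι'' = Hm ι'
  anchor : ∀ n ι θ, H.th n (Hm ι) = some θ → ι 0 = true
  cov : H.Cov (μ.map Hm)
  fin : ∀ᵐ ι ∂μ, ∃ j, ((Hm ι 0).1 j).1 = false
  pos : μ {ι | ((Hm ι 0).1 0).1 = true} ≠ 0
  neg : μ {ι | ((Hm ι 0).1 0).1 = false} ≠ 0

end Pool.Agent.FDI
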