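import Pool.Agent.P.MP_1a5a6a_pr.Prod

/-! The data from which one direction of a coding is assembled. -/

set_option autoImplicit false

open MeasureTheory ProbabilityTheory Filter Topology
open scoped ENNReal

namespace Pool.Agent.FDI

variable {d : ℕ}

/-- One direction of a coding along the relations `R n θ` between private parts on cells:
on the set `det n θ w` every partner takes the value `val n θ w` at the site `w`. -/
structure Half {K T LA LB FA FB : Type} [MeasurableSpace K] [MeasurableSpace LA]
    [MeasurableSpace LB] {H : Hier d K T} {η : Measure (G d → K)} (A : Side H η LA FA)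
    (B : Side H η LB FB) (R : ℕ → T → (G d → LA) → (G d → LB) → Prop) where
  det : ℕ → T → G d → Set (G d → LA)
  val : ℕ → T → G d → (G d → LA) → LB
  det_meas : ∀ n θ w, MeasurableSet (det n θ w)
  val_meas : ∀ n θ w, Measurable (val n θ w)
  det_loc : ∀ n θ w, Dep (H.C θ : Set (G d)) (det n θ w)
  val_loc : ∀ n θ w p p', (∀ v ∈ H.C θ, p v = p' v) → val n θ w p = val n θ w p'
  sound : ∀ n θ w p q, η (H.ev n θ) ≠ 0 → w ∈ H.C θ → p ∈ det n θ w → R n θ p q →
    q w = val n θ w p
  hall : ∀ n θ, η (H.ev n θ) ≠ 0 → ∀ (A' : Set (G d → LA)) (E : Set (G d → LB)),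
    MeasurableSet A' → Dep (H.C θ : Set (G d)) A' → MeasurableSet E →
    Dep (H.C θ : Set (G d)) E → (∀ p ∈ A', ∀ q, R n θ p q → q ∈ E) → A.mu n θ A' ≤ B.mu n θ E
  ne : ∀ n θ, η (H.ev n θ) ≠ 0 → ∀ᵐ p ∂A.mu n θ, ∃ q, R n θ p q
  ae_det : ∀ᵐ ω ∂A.P, ∃ n u θ, H.th n (sh u (cm ω)) = some θ ∧ -u ∈ H.C θ ∧
    sh u (pv ω) ∈ det n θ (-u)

/-- Events read off the fillers of far apart sets are independent. -/
def SepInd {L F : Type} [MeasurableSpace L] (k : ℕ) (π : Measure (G d → L))
    (W : Finset (G d) → (G d → L) → F) : Prop :=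
  ∀ J J' : Finset (G d), (∀ u ∈ J, ∀ v ∈ J', k < nrm (u - v)) →
    ∀ E E' : Set (G d → L), MeasurableSet E → MeasurableSet E' → Sat W J E → Sat W J' E' →
      π (E ∩ E') = π E * π E'

/-- Some event read off the filler of a cell is nontrivial. -/
def Side.Pos {K T L F : Type} [MeasurableSpace K] [MeasurableSpace L] {H : Hier d K T}
    {η : Measure (G d → K)} (S : Side H η L F) : Prop :=
  ∃ n θ E, η (H.ev n θ) ≠ 0 ∧ Sat S.W (H.C θ) E ∧ 0 < S.mu n θ E ∧ S.mu n θ E < 1

/-- The uniform law on the unit interval. -/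
noncomputable def unif : Measure ℝ := volume.restrict (Set.Icc 0 1)

instance : IsProbabilityMeasure unif := ⟨by simp [unif]⟩

instance : NullSingletonClass unif := by
  unfold unif
  infer_instance

theorem sepInd_of_kdep {L F : Type} [MeasurableSpace L] {k : ℕ} {π : Measure (G d → L)}
    (h : KDep k π) {W : Finset (G d) → (G d → L) → F}
    (hW : ∀ J p p', (∀ v ∈ J, p v = p' v) → W J p = W J p') : SepInd k π W :=
  fun J J' hJ E E' hE hE' hs hs' =>
    h J J' (fun u hu v hv => hJ u hu v hv) E E' hE hE' (hs.dep hW) (hs'.dep hW)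

theorem Hier.sep_zero {K T : Type} [MeasurableSpace K] (H : Hier d K T) : H.Sep 0 := by
  intro θ v hv w hw
  rw [Nat.pos_iff_ne_zero, Ne, nrm_eq_zero, sub_eq_zero]
  rintro rfl
  exact hw (H.CZ θ hv)

/-- Finite measures on configurations are determined by boxes. -/
theorem ext_box {L : Type} [MeasurableSpace L] {m m' : Measure (G d → L)} [IsFiniteMeasure m]
    (h : ∀ (J : Finset (G d)) (B : G d → Set L), (∀ v, MeasurableSet (B v)) →
      m {y | ∀ v ∈ J, y v ∈ B v} = m' {y | ∀ v ∈ J, y v ∈ B v}) : m = m' := by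
  refine ext_of_generate_finite _ generateFrom_squareCylinders.symm
    (isPiSystem_squareCylinders (fun _ => MeasurableSpace.isPiSystem_measurableSet) (by simp))
    ?_ ?_
  · rintro _ ⟨J, B, hB, rfl⟩
    exact h J B fun v => hB v (Set.mem_univ v)
  · simpa using h ∅ (fun _ => Set.univ) fun _ => MeasurableSet.univ

theorem measurableSet_box {L : Type} [MeasurableSpace L] (J : Finset (G d)) {B : G d → Set L}
    (hB : ∀ v, MeasurableSet (B v)) : MeasurableSet {y : G d → L | ∀ v ∈ J, y v ∈ B v} :=
  MeasurableSet.pi (s := (J : Set (G d))) J.countable_toSet fun v _ => hB v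

theorem exists_ball_supset (J : Finset (G d)) : ∃ r, J ⊆ ball d r :=
  ⟨J.sup nrm, fun _ hv => mem_ball.2 (Finset.le_sup hv)⟩

/-- Finite measures on configurations of pairs are determined by products of an event of the
common part and a local event of the private part. -/
theorem ext_cm_pv {K L : Type} [MeasurableSpace K] [MeasurableSpace L]
    {P Q : Measure (G d → K × L)} [IsFiniteMeasure P] [IsFiniteMeasure Q]
    (h : ∀ (D : Set (G d → K)) (E : Set (G d → L)) (r : ℕ), MeasurableSet D → MeasurableSet E →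
      Dep (ball d r : Set (G d)) E → P (cm ⁻¹' D ∩ pv ⁻¹' E) = Q (cm ⁻¹' D ∩ pv ⁻¹' E)) :
    P = Q := by
  have h1 : ∀ D : Set (G d → K), MeasurableSet D →
      (P.restrict (cm ⁻¹' D)).map pv = (Q.restrict (cm ⁻¹' D)).map pv := by
    intro D hD
    refine ext_box fun J B hB => ?_
    obtain ⟨r, hr⟩ := exists_ball_supset J
    have hm := measurableSet_box J hB
    rw [Measure.map_apply measurable_pv hm, Measure.map_apply measurable_pv hm,
      Measure.restrict_apply (measurable_pv hm), Measure.restrict_apply (measurable_pv hm),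
      Set.inter_comm]
    refine h D _ r hD hm fun x x' hx hE v hv => ?_
    rw [← hx v (hr hv)]
    exact hE v hv
  have hc : Measurable fun ω : G d → K × L => (cm ω, pv ω) := measurable_cm.prodMk measurable_pv
  have h2 : P.map (fun ω => (cm ω, pv ω)) = Q.map (fun ω => (cm ω, pv ω)) := by
    refine Measure.ext_prod fun {D E} hD hE => ?_
    rw [Measure.map_apply hc (hD.prod hE), Measure.map_apply hc (hD.prod hE)]
    have := congrArg (fun m => m E) (h1 D hD)
    simp only [Measure.map_apply measurable_pv hE,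
      Measure.restrict_apply (measurable_pv hE)] at this
    rw [Set.inter_comm] at this
    exact this
  have h3 := congrArg (Measure.map zp) h2
  rw [Measure.map_map measurable_zp hc, Measure.map_map measurable_zp hc] at h3
  have h4 : (zp ∘ fun ω : G d → K × L => (cm ω, pv ω)) = id := rfl
  rwa [h4, Measure.map_id, Measure.map_id] at h3

end Pool.Agent.FDI
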