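import Pool.Agent.P.MP_1a5a6a_pr.Defs

/-! Elementary facts about `info`, `Dep`, `Sat`, `mask`, `rawW`. -/

set_option autoImplicit false

open MeasureTheory ProbabilityTheory Filter Topology
open scoped ENNReal

namespace Pool.Agent.FDI

variable {d : ℕ}

@[simp] theorem info_zero : info 0 = ⊤ := by simp [info]

@[simp] theorem info_one : info 1 = 0 := by simp [info]

theorem info_ne_top {x : ℝ≥0∞} (hx : x ≠ 0) : info x ≠ ⊤ := by simp [info, hx]

theorem info_of_ne {x : ℝ≥0∞} (hx : x ≠ 0) : info x = ENNReal.ofReal (-Real.log x.toReal) := by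
  simp [info, hx]

theorem info_mul {x y : ℝ≥0∞} (hx : x ≤ 1) (hy : y ≤ 1) : info (x * y) = info x + info y := by
  by_cases hx0 : x = 0
  · simp [hx0]
  by_cases hy0 : y = 0
  · simp [hy0]
  have hxt : x ≠ ⊤ := ne_top_of_le_ne_top ENNReal.one_ne_top hx
  have hyt : y ≠ ⊤ := ne_top_of_le_ne_top ENNReal.one_ne_top hy
  have hx1 : x.toReal ≤ 1 := by simpa using ENNReal.toReal_mono ENNReal.one_ne_top hx
  have hy1 : y.toReal ≤ 1 := by simpa using ENNReal.toReal_mono ENNReal.one_ne_top hy
  have hxp : 0 < x.toReal := ENNReal.toReal_pos hx0 hxt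
  have hyp : 0 < y.toReal := ENNReal.toReal_pos hy0 hyt
  rw [info_of_ne (mul_ne_zero hx0 hy0), info_of_ne hx0, info_of_ne hy0, ENNReal.toReal_mul,
    Real.log_mul hxp.ne' hyp.ne', neg_add, ENNReal.ofReal_add]
  · have := Real.log_nonpos hxp.le hx1
    linarith
  · have := Real.log_nonpos hyp.le hy1
    linarith

theorem info_anti {x y : ℝ≥0∞} (hxy : x ≤ y) (hy : y ≠ ⊤) : info y ≤ info x := by
  by_cases hx0 : x = 0
  · simp [hx0]
  have hy0 : y ≠ 0 := fun h => hx0 (le_antisymm (h ▸ hxy) (zero_le))
  have hxt : x ≠ ⊤ := ne_top_of_le_ne_top hy hxy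
  rw [info_of_ne hx0, info_of_ne hy0]
  apply ENNReal.ofReal_le_ofReal
  have := Real.log_le_log (ENNReal.toReal_pos hx0 hxt) (ENNReal.toReal_mono hy hxy)
  linarith

theorem info_prod {ι : Type} (s : Finset ι) (x : ι → ℝ≥0∞) (hx : ∀ i ∈ s, x i ≤ 1) :
    info (∏ i ∈ s, x i) = ∑ i ∈ s, info (x i) := by
  classical
  induction s using Finset.induction_on with
  | empty => simp
  | insert a s ha ih =>
    rw [Finset.prod_insert ha, Finset.sum_insert ha, info_mul (hx a (Finset.mem_insert_self _ _))
      (Finset.prod_le_one' fun i hi => hx i (Finset.mem_insert_of_mem hi)),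
      ih fun i hi => hx i (Finset.mem_insert_of_mem hi)]

theorem measurable_info : Measurable info := by
  unfold info
  refine Measurable.ite (measurableSet_singleton 0) measurable_const ?_
  exact ENNReal.measurable_ofReal.comp
    (Real.measurable_log.comp ENNReal.measurable_toReal).neg

theorem info_pos {x : ℝ≥0∞} (hx : x < 1) : 0 < info x := by
  by_cases hx0 : x = 0
  · simp [hx0]
  have hxt : x ≠ ⊤ := ne_top_of_lt hx
  rw [info_of_ne hx0, ENNReal.ofReal_pos]
  have h1 : x.toReal < 1 := by
    have := (ENNReal.toReal_lt_toReal hxt ENNReal.one_ne_top).2 hx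
    simpa using this
  have := Real.log_neg (ENNReal.toReal_pos hx0 hxt) h1
  linarith

/-- Small information means large probability. -/
theorem info_lt_of_lt {x : ℝ≥0∞} {c : ℝ} (hc : 0 < c) (hx : x ≠ ⊤)
    (h : ENNReal.ofReal (Real.exp (-c)) < x) : info x < ENNReal.ofReal c := by
  have hx0 : x ≠ 0 := (lt_of_le_of_lt zero_le h).ne'
  rw [info_of_ne hx0, ENNReal.ofReal_lt_ofReal_iff hc]
  have h1 : Real.exp (-c) < x.toReal := by
    rwa [ENNReal.ofReal_lt_iff_lt_toReal (Real.exp_pos _).le hx] at h
  have := Real.log_lt_log (Real.exp_pos _) h1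
  rw [Real.log_exp] at this
  linarith

/-- Small probability means large information. -/
theorem le_info_of_le {x : ℝ≥0∞} {c : ℝ} (h : x ≤ ENNReal.ofReal (Real.exp (-c))) :
    ENNReal.ofReal c ≤ info x := by
  by_cases hx0 : x = 0
  · simp [hx0]
  have hxt : x ≠ ⊤ := ne_top_of_le_ne_top ENNReal.ofReal_ne_top h
  rw [info_of_ne hx0]
  apply ENNReal.ofReal_le_ofReal
  have h1 : x.toReal ≤ Real.exp (-c) := ENNReal.toReal_le_of_le_ofReal (Real.exp_pos _).le h
  have := Real.log_le_log (ENNReal.toReal_pos hx0 hxt) h1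
  rw [Real.log_exp] at this
  linarith

theorem Dep.mono {A : Type} {U V : Set (G d)} {E : Set (G d → A)} (h : Dep U E) (hUV : U ⊆ V) :
    Dep V E := fun x x' hx => h x x' fun v hv => hx v (hUV hv)

theorem Dep.inter {A : Type} {U : Set (G d)} {E F : Set (G d → A)} (h : Dep U E) (h' : Dep U F) :
    Dep U (E ∩ F) := fun x x' hx hE => ⟨h x x' hx hE.1, h' x x' hx hE.2⟩

theorem Dep.union {A : Type} {U : Set (G d)} {E F : Set (G d → A)} (h : Dep U E) (h' : Dep U F) :
    Dep U (E ∪ F) := fun x x' hx hE => hE.imp (h x x' hx) (h' x x' hx)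

theorem Dep.compl {A : Type} {U : Set (G d)} {E : Set (G d → A)} (h : Dep U E) : Dep U Eᶜ :=
  fun x x' hx hE hE' => hE (h x' x (fun v hv => (hx v hv).symm) hE')

theorem dep_univ {A : Type} (U : Set (G d)) : Dep U (Set.univ : Set (G d → A)) :=
  fun _ _ _ _ => trivial

theorem Dep.shift {A : Type} {U V : Set (G d)} {E : Set (G d → A)} (h : Dep U E) (a : G d)
    (hUV : ∀ v ∈ U, v + a ∈ V) : Dep V (sh a ⁻¹' E) :=
  fun x x' hx hE => h (sh a x) (sh a x') (fun v hv => hx (v + a) (hUV v hv)) hE

theorem Sat.inter {L F : Type} {W : Finset (G d) → (G d → L) → F} {J : Finset (G d)}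
    {E E' : Set (G d → L)} (h : Sat W J E) (h' : Sat W J E') : Sat W J (E ∩ E') :=
  fun p p' hp hE => ⟨h p p' hp hE.1, h' p p' hp hE.2⟩

theorem Sat.compl {L F : Type} {W : Finset (G d) → (G d → L) → F} {J : Finset (G d)}
    {E : Set (G d → L)} (h : Sat W J E) : Sat W J Eᶜ :=
  fun p p' hp hE hE' => hE (h p' p hp.symm hE')

theorem sat_univ {L F : Type} (W : Finset (G d) → (G d → L) → F) (J : Finset (G d)) :
    Sat W J Set.univ := fun _ _ _ _ => trivial

theorem Sat.dep {L F : Type} {W : Finset (G d) → (G d → L) → F} {J : Finset (G d)}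
    {E : Set (G d → L)} (h : Sat W J E)
    (hW : ∀ J p p', (∀ v ∈ J, p v = p' v) → W J p = W J p') : Dep (J : Set (G d)) E :=
  fun x x' hx hE => h x x' (hW J x x' fun v hv => hx v hv) hE

theorem rawW_eq_iff {L : Type} {J : Finset (G d)} {p p' : G d → L} :
    rawW J p = rawW J p' ↔ ∀ v ∈ J, p v = p' v := by
  constructor
  · intro h v hv
    have := congrFun h v
    simpa [rawW, hv] using this
  · intro h
    funext v
    by_cases hv : v ∈ J
    · simp [rawW, hv, h v hv]
    · simp [rawW, hv]

theorem sat_raw_iff {L : Type} {J : Finset (G d)} {E : Set (G d → L)} :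
    Sat rawW J E ↔ Dep (J : Set (G d)) E := by
  constructor
  · intro h x x' hx
    exact h x x' (rawW_eq_iff.2 fun v hv => hx v hv)
  · intro h x x' hx
    exact h x x' fun v hv => rawW_eq_iff.1 hx v hv

theorem rawW_mono {L : Type} (J J' : Finset (G d)) (u : G d) (p p' : G d → L)
    (hJ : ∀ v ∈ J, v + u ∈ J') (h : rawW J' p = rawW J' p') :
    rawW J (sh u p) = rawW J (sh u p') :=
  rawW_eq_iff.2 fun v hv => rawW_eq_iff.1 h (v + u) (hJ v hv)

theorem measurable_mask {L : Type} [MeasurableSpace L] (l0 : L) (U : Finset (G d)) :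
    Measurable (mask l0 U : (G d → L) → (G d → L)) := by
  refine measurable_pi_lambda _ fun v => ?_
  by_cases hv : v ∈ U
  · simpa [mask, hv] using measurable_pi_apply v
  · simp [mask, hv]

/-- A function of finitely many Boolean coordinates is measurable. -/
theorem measurable_of_local {α : Type} [MeasurableSpace α] (f : (G d → Bool) → α)
    (J : Finset (G d)) (h : ∀ x x', (∀ v ∈ J, x v = x' v) → f x = f x') : Measurable f := by
  classical
  have hf : f = (fun y : J → Bool => f fun v => if hv : v ∈ J then y ⟨v, hv⟩ else false) ∘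
      fun x (v : J) => x v := by
    funext x
    apply h
    intro v hv
    simp [hv]
  rw [hf]
  exact (measurable_of_finite _).comp (measurable_pi_lambda _ fun v => measurable_pi_apply _)

theorem measurableSet_of_dep {E : Set (G d → Bool)} (J : Finset (G d))
    (h : Dep (J : Set (G d)) E) : MeasurableSet E := by
  have : Measurable fun x => x ∈ E :=
    measurable_of_local _ J fun x x' hx =>
      propext ⟨h x x' fun v hv => hx v hv, h x' x fun v hv => (hx v hv).symm⟩
  exact measurableSet_setOfPred.2 this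

theorem measurableSet_of_ball {E : Set (G d → Bool)} (c : G d) (r : ℕ)
    (h : ∀ x x', (∀ v, nrm (v - c) ≤ r → x v = x' v) → x ∈ E → x' ∈ E) : MeasurableSet E := by
  classical
  refine measurableSet_of_dep ((ball d r).image (· + c)) fun x x' hx => h x x' fun v hv => ?_
  apply hx
  simp only [Finset.coe_image, Set.mem_image, Finset.mem_coe]
  exact ⟨v - c, mem_ball.2 hv, by simp⟩

instance iid_isProb {A : Type} [MeasurableSpace A] (ν : Measure A) [IsProbabilityMeasure ν] :
    IsProbabilityMeasure (iid d ν) := by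
  unfold iid
  infer_instance

instance zp_isProb {K L : Type} [MeasurableSpace K] [MeasurableSpace L]
    (η : Measure (G d → K)) (π : Measure (G d → L)) [IsProbabilityMeasure η]
    [IsProbabilityMeasure π] : IsProbabilityMeasure ((η.prod π).map zp) :=
  Measure.isProbabilityMeasure_map measurable_zp.aemeasurable

theorem Stat.map {A B : Type} [MeasurableSpace A] [MeasurableSpace B] {μ : Measure (G d → A)}
    (hμ : Stat μ) {φ : (G d → A) → (G d → B)} (hm : Measurable φ)
    (he : ∀ a x, φ (sh a x) = sh a (φ x)) : Stat (μ.map φ) := by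
  intro a
  rw [Measure.map_map (measurable_sh a) hm]
  have : sh a ∘ φ = φ ∘ sh a := by
    funext x
    simp [he]
  rw [this, ← Measure.map_map hm (measurable_sh a), hμ a]

theorem Stat.lintegral {A : Type} [MeasurableSpace A] {μ : Measure (G d → A)} (hμ : Stat μ)
    (a : G d) {f : (G d → A) → ℝ≥0∞} (hf : Measurable f) :
    ∫⁻ x, f (sh a x) ∂μ = ∫⁻ x, f x ∂μ := by
  conv_rhs => rw [← hμ a]
  rw [lintegral_map hf (measurable_sh a)]

/-- The indicator field of a set of values. -/
noncomputable def ind {A : Type} (I : Set A) (x : G d → A) : G d → Bool := by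
  classical
  exact fun v => decide (x v ∈ I)

theorem ind_eq_true {A : Type} {I : Set A} {x : G d → A} {v : G d} :
    ind I x v = true ↔ x v ∈ I := by
  simp [ind]

theorem ind_sh {A : Type} (I : Set A) (a : G d) (x : G d → A) :
    ind I (sh a x) = sh a (ind I x) := rfl

theorem ind_congr {A : Type} (I : Set A) {x x' : G d → A} {v : G d} (h : x v = x' v) :
    ind I x v = ind I x' v := by
  simp [ind, h]

theorem measurable_ind {A : Type} [MeasurableSpace A] {I : Set A} (hI : MeasurableSet I) :
    Measurable (ind I : (G d → A) → (G d → Bool)) := by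
  refine measurable_pi_lambda _ fun v => ?_
  refine measurable_to_bool ?_
  have : (fun x : G d → A => ind I x v) ⁻¹' {true} = (fun x => x v) ⁻¹' I := by
    ext x
    simp [ind_eq_true]
  rw [this]
  exact measurable_pi_apply v hI

instance : MeasurableEq (Rec d) :=
  ⟨measurableSet_eq_fun (measurable_subtype_coe.comp measurable_fst)
    (measurable_subtype_coe.comp measurable_snd) |>.congr (by
      ext x
      simp [Set.diagonal, Subtype.ext_iff])⟩

/-- Strong recursion with a link between each term and the earlier ones. -/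
theorem exists_strong_rec {D : ℕ → Type} (Link : ∀ n, (∀ j, j < n → D j) → D n → Prop)
    (h : ∀ n f, ∃ x, Link n f x) : ∃ f : ∀ n, D n, ∀ n, Link n (fun j _ => f j) (f n) := by
  choose g hg using h
  let f : ∀ n, D n := fun n => Nat.strongRec (motive := D) (fun n ih => g n ih) n
  have hf : ∀ n, f n = g n fun j _ => f j := by
    intro n
    show Nat.strongRec (motive := D) (fun n ih => g n ih) n = _
    rw [Nat.strongRec_eq]
  exact ⟨f, fun n => by rw [hf n]; exact hg n _⟩

end Pool.Agent.FDI
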