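import Pool.Agent.P.MP_1a5a6a_pr.Info

/-! Definitions for the marker hierarchy with insensitive gaps. -/

set_option autoImplicit false

open MeasureTheory ProbabilityTheory Filter Topology
open scoped ENNReal

namespace Pool.Agent.FDI

variable {d : ℕ}

/-- Side of the boxes. -/
def ell (k m0 : ℕ) : ℕ := 8 * ((k + 1) * (m0 + 1))

/-- The field is `true` on the cube of radius `M` of the grid of mesh `k + 1`. -/
def solid (k M : ℕ) (ι : G d → Bool) : Prop :=
  ∀ t : G d, nrm t ≤ M → ι (((k + 1 : ℕ) : ℤ) • t) = true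

/-- A solid cube with no lexicographically smaller one within distance `k`. -/
def cand (k M : ℕ) (ι : G d → Bool) : Prop :=
  solid k M ι ∧ ∀ y : G d, nrm y ≤ k → toLex y < toLex (0 : G d) → ¬ solid k M (sh y ι)

/-- A candidate with no other candidate within distance `s`. -/
def isol (k M s : ℕ) (ι : G d → Bool) : Prop :=
  cand k M ι ∧ ∀ y : G d, y ≠ 0 → nrm y ≤ s → ¬ cand k M (sh y ι)

/-- Index of the box of side `l` containing `y`. -/
def idx (l : ℕ) (y : G d) : G d := fun c => y c / (l : ℤ)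

/-- `y` lies in the core of box `i`. -/
def core (k l : ℕ) (i y : G d) : Prop :=
  ∀ c, (l : ℤ) * i c + (k + 1 : ℕ) ≤ y c ∧ y c + (k + 1 : ℕ) < (l : ℤ) * i c + l

/-- Box `i` has a small solid cube in its core. -/
def unclean (k m0 : ℕ) (ι : G d → Bool) (i : G d) : Prop :=
  ∃ y : G d, (∀ t : G d, nrm t ≤ m0 → core k (ell k m0) i (((k + 1 : ℕ) : ℤ) • t + y)) ∧
    solid k m0 (sh y ι)

/-- Box `i` meets the zone of an isolated candidate. -/
def blk (k l M N T : ℕ) (ι : G d → Bool) (i : G d) : Prop :=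
  ∃ w : G d, isol k M (22 * (l * N)) (sh w ι) ∧
    ∃ y : G d, idx l y = i ∧ nrm (y - w) ≤ l * (N + T + 2)

/-- Bad boxes at level `n`. -/
def badF (k m0 : ℕ) (m N T : ℕ → ℕ) : ℕ → (G d → Bool) → G d → Prop
  | 0 => unclean k m0
  | n + 1 => fun ι i => badF k m0 m N T n ι i ∨ blk k (ell k m0) (m n) (N n) (T n) ι i

/-- A step between neighbouring boxes, one of which is bad. -/
def stp (B : G d → Prop) (i i' : G d) : Prop := nrm (i - i') ≤ 1 ∧ (B i ∨ B i')

/-- A path of steps from `c` to distance `t`, inside the ball of radius `t` about `c`. -/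
def cross (B : G d → Prop) (c : G d) (t : ℕ) : Prop :=
  ∃ i, nrm (i - c) = t ∧ Relation.ReflTransGen (fun a b => stp B a b ∧ nrm (b - c) ≤ t) c i

/-- Boxes reached from the ball of radius `N` by steps inside the ball of radius `R`. -/
def reach (B : G d → Prop) (N R : ℕ) (i : G d) : Prop :=
  ∃ i0, nrm i0 ≤ N ∧ Relation.ReflTransGen (fun a b => stp B a b ∧ nrm b ≤ R) i0 i

/-- The exploration stops inside the ball of radius `N + T`. -/
def stay (B : G d → Prop) (N T : ℕ) : Prop := ∀ i, reach B N (N + T + 1) i → nrm i ≤ N + T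

/-- A field of bad boxes of side `l`, equivariant and of range `l * V`. -/
structure Fld (l V : ℕ) (B : (G d → Bool) → G d → Prop) : Prop where
  equiv : ∀ ι i j, B (sh ((l : ℤ) • j) ι) i ↔ B ι (i + j)
  loc : ∀ ι ι' i, (∀ y, nrm (y - (l : ℤ) • i) ≤ l * V → ι y = ι' y) → B ι i → B ι' i

/-- Parameters of the construction. -/
structure Par (k : ℕ) where
  m0 : ℕ
  m : ℕ → ℕ
  N : ℕ → ℕ
  T : ℕ → ℕ
  m_ge : 2 * m0 + 1 ≤ m 0
  m_mono : ∀ n, m n ≤ m (n + 1)
  mz : ∀ n, 2 * (ell k m0 * (N n + T n + 2)) < (k + 1) * m (n + 1)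
  NT : ∀ n, (n + 4) * (T n + 2) ≤ N n
  Nm : ∀ n, 8 * (2 * k + (k + 1) * m n) ≤ ell k m0 * N n

namespace Par

variable {k : ℕ} (P : Par k)

/-- Side of the boxes. -/
def l : ℕ := ell k P.m0

/-- Outer radius at level `n`. -/
def z (n : ℕ) : ℕ := P.l * (P.N n + P.T n + 2)

/-- Inner radius at level `n`. -/
def a (n : ℕ) : ℕ := P.l * P.N n - (k + 1)

/-- Bad boxes at level `n`. -/
def bad (n : ℕ) : (G d → Bool) → G d → Prop := badF k P.m0 P.m P.N P.T n

/-- Isolated candidates at level `n`. -/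
def iso (n : ℕ) (ι : G d → Bool) : Prop := isol k (P.m n) (22 * (P.l * P.N n)) ι

/-- The origin is the anchor of a cell of level `n`. -/
def good (n : ℕ) (ι : G d → Bool) : Prop := P.iso n ι ∧ stay (P.bad n ι) (P.N n) (P.T n)

end Par

/-- The probabilistic requirements at level `n`. -/
structure Lev (μ : Measure (G d → Bool)) (k l n M N T : ℕ)
    (B : (G d → Bool) → G d → Prop) : Prop where
  up : μ.real {ι | cand k M ι} * (44 * (l * N : ℕ) + 1 : ℝ) ^ d ≤ 1 / 4
  low : 1 / 4 ≤ μ.real {ι | cand k M ι} * (89 * (l * N : ℕ) : ℝ) ^ d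
  pair : ∀ y : G d, y ≠ 0 →
    ((2 * (3 * k + 2 * ((k + 1) * M)) + 1 : ℕ) : ℝ) ^ d *
      μ.real {ι | cand k M ι ∧ cand k M (sh y ι)} ≤ μ.real {ι | cand k M ι} / (n + 1)
  small : ((2 * (3 * k + 2 * ((k + 1) * M)) + 1 : ℕ) : ℝ) ^ d * μ.real {ι | cand k M ι} ≤
    1 / (n + 1)
  fail : μ.real {ι | cand k M ι ∧ ¬ stay (B ι) N T} ≤ μ.real {ι | cand k M ι} / (n + 1)

theorem ell_pos (k m0 : ℕ) : 0 < ell k m0 := by
  unfold ell
  positivity

theorem solid_loc {k M : ℕ} {ι ι' : G d → Bool}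
    (h : ∀ y, nrm y ≤ (k + 1) * M → ι y = ι' y) (hs : solid k M ι) : solid k M ι' := by
  intro t ht
  rw [← h, hs t ht]
  rw [nrm_le_iff] at ht ⊢
  intro c
  have := ht c
  simp only [Pi.smul_apply, smul_eq_mul]
  push_cast
  constructor <;> nlinarith [this.1, this.2]

theorem solid_mono {k M M' : ℕ} (h : M ≤ M') {ι : G d → Bool} (hs : solid k M' ι) :
    solid k M ι := fun t ht => hs t (ht.trans h)

theorem cand_loc {k M : ℕ} {ι ι' : G d → Bool}
    (h : ∀ y, nrm y ≤ k + (k + 1) * M → ι y = ι' y) (hs : cand k M ι) : cand k M ι' := by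
  refine ⟨solid_loc (fun y hy => h y (by omega)) hs.1, fun y hy hl hy' => hs.2 y hy hl ?_⟩
  refine solid_loc (fun w hw => ?_) hy'
  have := nrm_add_le w y
  exact (h (w + y) (by omega)).symm

theorem isol_loc {k M s : ℕ} {ι ι' : G d → Bool}
    (h : ∀ y, nrm y ≤ s + (k + (k + 1) * M) → ι y = ι' y) (hs : isol k M s ι) :
    isol k M s ι' := by
  refine ⟨cand_loc (fun y hy => h y (by omega)) hs.1, fun y hy hl hy' => hs.2 y hy hl ?_⟩
  refine cand_loc (fun w hw => ?_) hy'
  have := nrm_add_le w y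
  exact (h (w + y) (by omega)).symm

/-- Two different candidates are at distance more than `k`. -/
theorem cand_far {k M : ℕ} {ι : G d → Bool} {y : G d} (hy : y ≠ 0) (h0 : cand k M ι)
    (h1 : cand k M (sh y ι)) : k < nrm y := by
  by_contra hk
  push Not at hk
  rcases lt_trichotomy (toLex y) (toLex (0 : G d)) with h | h | h
  · exact h0.2 y hk h h1.1
  · exact hy (toLex.injective h)
  · refine h1.2 (-y) (by simpa using hk) ?_ ?_
    · have : toLex (-y) = -toLex y := rfl
      rw [this]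
      exact neg_lt_zero.2 h
    · rw [sh_sh]
      simpa using h0.1

theorem measurableSet_solid (k M : ℕ) : MeasurableSet {ι : G d → Bool | solid k M ι} :=
  measurableSet_of_ball 0 ((k + 1) * M) fun _ _ hx =>
    solid_loc fun y hy => hx y (by simpa using hy)

theorem measurableSet_cand (k M : ℕ) : MeasurableSet {ι : G d → Bool | cand k M ι} :=
  measurableSet_of_ball 0 (k + (k + 1) * M) fun _ _ hx =>
    cand_loc fun y hy => hx y (by simpa using hy)

theorem idx_spec {l : ℕ} (hl : 0 < l) (y : G d) (c : Fin d) :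
    (l : ℤ) * idx l y c ≤ y c ∧ y c < (l : ℤ) * idx l y c + l := by
  have hl' : (0 : ℤ) < l := by exact_mod_cast hl
  unfold idx
  have h1 := Int.mul_ediv_add_emod (y c) l
  have h2 := Int.emod_nonneg (y c) hl'.ne'
  have h3 := Int.emod_lt_of_pos (y c) hl'
  constructor <;> linarith

theorem idx_eq_of {l : ℕ} (hl : 0 < l) {y i : G d}
    (h : ∀ c, (l : ℤ) * i c ≤ y c ∧ y c < (l : ℤ) * i c + l) : idx l y = i := by
  funext c
  have h1 := idx_spec hl y c
  have h2 := h c
  have hl' : (0 : ℤ) < l := by exact_mod_cast hl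
  apply le_antisymm
  · by_contra hc
    push Not at hc
    have : i c + 1 ≤ idx l y c := hc
    nlinarith [h1.1, h2.2]
  · by_contra hc
    push Not at hc
    have : idx l y c + 1 ≤ i c := hc
    nlinarith [h1.2, h2.1]

theorem idx_add_smul {l : ℕ} (hl : 0 < l) (y j : G d) :
    idx l (y + (l : ℤ) • j) = idx l y + j := by
  apply idx_eq_of hl
  intro c
  have := idx_spec hl y c
  simp only [Pi.add_apply, Pi.smul_apply, smul_eq_mul]
  constructor <;> nlinarith [this.1, this.2]

theorem nrm_sub_idx {l : ℕ} (hl : 0 < l) (y : G d) : nrm (y - (l : ℤ) • idx l y) ≤ l := by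
  rw [nrm_le_iff]
  intro c
  have := idx_spec hl y c
  simp only [Pi.sub_apply, Pi.smul_apply, smul_eq_mul]
  constructor <;> linarith [this.1, this.2]

theorem nrm_idx_sub {l D : ℕ} (hl : 0 < l) {y y' : G d} (h : nrm (y - y') ≤ l * D) :
    nrm (idx l y - idx l y') ≤ D := by
  rw [nrm_le_iff] at h ⊢
  intro c
  have h1 := idx_spec hl y c
  have h2 := idx_spec hl y' c
  have h3 := h c
  have hl' : (0 : ℤ) < l := by exact_mod_cast hl
  simp only [Pi.sub_apply] at h3 ⊢
  push_cast at h3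
  constructor
  · by_contra hc
    push Not at hc
    have : idx l y c + D + 1 ≤ idx l y' c := by omega
    nlinarith [h1.2, h2.1, h3.1]
  · by_contra hc
    push Not at hc
    have : idx l y' c + D + 1 ≤ idx l y c := by omega
    nlinarith [h1.1, h2.2, h3.2]

theorem nrm_smul (l : ℕ) (i : G d) : nrm ((l : ℤ) • i) = l * nrm i := by
  apply le_antisymm
  · rw [nrm_le_iff]
    intro c
    have := abs_le_nrm i c
    have hl : (0 : ℤ) ≤ l := Int.natCast_nonneg l
    simp only [Pi.smul_apply, smul_eq_mul]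
    push_cast
    constructor <;> nlinarith [this.1, this.2]
  · rcases Nat.eq_zero_or_pos l with rfl | hl
    · simp
    have : nrm i ≤ nrm ((l : ℤ) • i) / l := by
      unfold nrm
      rw [Finset.sup_le_iff]
      intro c _
      rw [Nat.le_div_iff_mul_le hl]
      have : ((l : ℤ) • i) c = (l : ℤ) * i c := rfl
      calc (i c).natAbs * l = (((l : ℤ) • i) c).natAbs := by
            rw [this, Int.natAbs_mul, Int.natAbs_natCast, mul_comm]
        _ ≤ _ := Finset.le_sup (f := fun c => (((l : ℤ) • i) c).natAbs) (Finset.mem_univ c)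
    calc l * nrm i ≤ l * (nrm ((l : ℤ) • i) / l) := Nat.mul_le_mul_left _ this
      _ ≤ _ := Nat.mul_div_le _ _

theorem nrm_le_of_idx {l : ℕ} (hl : 0 < l) (y : G d) : nrm y ≤ l * (nrm (idx l y) + 1) := by
  have h1 := nrm_sub_idx hl y
  have h2 := nrm_add_le (y - (l : ℤ) • idx l y) ((l : ℤ) • idx l y)
  rw [sub_add_cancel, nrm_smul] at h2
  nlinarith

theorem core_idx {k l : ℕ} (hl : 0 < l) {i y w : G d} (h : core k l i y)
    (hw : nrm (w - y) ≤ k + 1) : idx l w = i := by
  apply idx_eq_of hl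
  intro c
  have h1 := h c
  have h2 := nrm_le_iff.1 hw c
  simp only [Pi.sub_apply] at h2
  constructor <;> linarith [h1.1, h1.2, h2.1, h2.2]

end Pool.Agent.FDI
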