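import Pool.Agent.P.MP_1a5a6a_pr.Cells

/-! Product formula over subcells, mass transport, and a Borel-Cantelli type lemma. -/

set_option autoImplicit false

open MeasureTheory ProbabilityTheory Filter Topology
open scoped ENNReal

namespace Pool.Agent.FDI

variable {d : ℕ}

namespace Side

variable {K T L F : Type} [MeasurableSpace K] [MeasurableSpace L] {H : Hier d K T}
  {η : Measure (G d → K)} (S : Side H η L F)

instance : IsProbabilityMeasure S.P := S.prob

include S in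
theorem eta_prob : IsProbabilityMeasure η := by
  rw [← S.marg]
  exact Measure.isProbabilityMeasure_map measurable_cm.aemeasurable

include S in
theorem eta_stat : Stat η := by
  rw [← S.marg]
  exact S.stat.map measurable_cm fun _ _ => rfl

theorem P_cm {D : Set (G d → K)} (hD : MeasurableSet D) : S.P (cm ⁻¹' D) = η D := by
  rw [← Measure.map_apply measurable_cm hD, S.marg]

theorem ae_cm {p : (G d → K) → Prop} (h : ∀ᵐ x ∂η, p x) : ∀ᵐ ω ∂S.P, p (cm ω) := by
  rw [← S.marg] at h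
  exact ae_of_ae_map measurable_cm.aemeasurable h

theorem mu_prob {n : ℕ} {θ : T} (h : η (H.ev n θ) ≠ 0) : IsProbabilityMeasure (S.mu n θ) := by
  have : IsProbabilityMeasure (S.P[| cm ⁻¹' H.ev n θ]) :=
    cond_isProbabilityMeasure (by rwa [S.P_cm (H.measurableSet_ev n θ)])
  exact Measure.isProbabilityMeasure_map measurable_pv.aemeasurable

theorem mu_le_one (n : ℕ) (θ : T) (E : Set (G d → L)) : S.mu n θ E ≤ 1 := by
  have : IsZeroOrProbabilityMeasure (S.mu n θ) := by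
    unfold mu condLaw
    infer_instance
  exact prob_le_one

theorem P_ev (n : ℕ) (θ : T) {B : Set (G d → L)} (hB : MeasurableSet B) :
    S.P (cm ⁻¹' H.ev n θ ∩ pv ⁻¹' B) = η (H.ev n θ) * S.mu n θ B := by
  have hm : MeasurableSet (cm ⁻¹' H.ev n θ : Set (G d → K × L)) :=
    measurable_cm (H.measurableSet_ev n θ)
  unfold mu condLaw
  rw [Measure.map_apply measurable_pv hB, cond_apply hm, ← S.P_cm (H.measurableSet_ev n θ),
    ← mul_assoc]
  by_cases h0 : S.P (cm ⁻¹' H.ev n θ) = 0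
  · rw [h0, zero_mul, zero_mul]
    exact measure_mono_null Set.inter_subset_left h0
  · rw [ENNReal.mul_inv_cancel h0 (measure_ne_top _ _), one_mul]

theorem P_ev_le (n : ℕ) (θ : T) (B : Set (G d → L)) :
    S.P (cm ⁻¹' H.ev n θ ∩ pv ⁻¹' B) ≤ η (H.ev n θ) * S.mu n θ B := by
  rw [← measure_toMeasurable B, ← S.P_ev n θ (measurableSet_toMeasurable _ _)]
  exact measure_mono (Set.inter_subset_inter_right _
    (Set.preimage_mono (subset_toMeasurable _ _)))

theorem lintegral_ev (n : ℕ) (θ : T) {f : (G d → L) → ℝ≥0∞} (hf : Measurable f) :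
    ∫⁻ ω in cm ⁻¹' H.ev n θ, f (pv ω) ∂S.P = η (H.ev n θ) * ∫⁻ p, f p ∂S.mu n θ := by
  have hm : MeasurableSet (cm ⁻¹' H.ev n θ : Set (G d → K × L)) :=
    measurable_cm (H.measurableSet_ev n θ)
  unfold mu condLaw
  rw [lintegral_map hf measurable_pv, ProbabilityTheory.cond, lintegral_smul_measure,
    ← S.P_cm (H.measurableSet_ev n θ), smul_eq_mul, ← mul_assoc]
  by_cases h0 : S.P (cm ⁻¹' H.ev n θ) = 0
  · rw [h0, zero_mul, zero_mul, Measure.restrict_eq_zero.2 h0, lintegral_zero_measure]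
  · rw [ENNReal.mul_inv_cancel h0 (measure_ne_top _ _), one_mul]

/-- Almost sure statements for the cell laws hold in every cell of almost every configuration. -/
theorem ae_of_mu [Countable T] {Q : ℕ → T → (G d → L) → Prop}
    (h : ∀ n θ, η (H.ev n θ) ≠ 0 → ∀ᵐ p ∂S.mu n θ, Q n θ p) :
    ∀ᵐ ω ∂S.P, ∀ n u θ, H.th n (sh u (cm ω)) = some θ → Q n θ (sh u (pv ω)) := by
  have : ∀ᵐ ω ∂S.P, ∀ n θ, H.th n (cm ω) = some θ → Q n θ (pv ω) := by
    rw [ae_all_iff]
    intro n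
    rw [ae_all_iff]
    intro θ
    have h0 : S.P (cm ⁻¹' H.ev n θ ∩ pv ⁻¹' {p | ¬ Q n θ p}) = 0 := by
      refine le_antisymm ((S.P_ev_le n θ _).trans ?_) zero_le
      by_cases hp : η (H.ev n θ) = 0
      · simp [hp]
      · have := h n θ hp
        rw [ae_iff] at this
        simp [this]
    filter_upwards [measure_eq_zero_iff_ae_notMem.1 h0] with ω hω h1
    by_contra hq
    exact hω ⟨h1, hq⟩
  filter_upwards [S.stat.ae_all this] with ω hω n u θ h1
  exact hω u n θ h1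

theorem sat_mono {J J' : Finset (G d)} (hJ : J ⊆ J') {E : Set (G d → L)} (h : Sat S.W J E) :
    Sat S.W J' E := by
  intro p p' hp
  have := S.W_mono J J' 0 p p' (fun v hv => by simpa using hJ hv) hp
  simp only [sh_zero] at this
  exact h p p' this

theorem sat_shift {J J' : Finset (G d)} (u : G d) (hJ : ∀ v ∈ J, v + u ∈ J')
    {E : Set (G d → L)} (h : Sat S.W J E) : Sat S.W J' (sh u ⁻¹' E) :=
  fun p p' hp => h _ _ (S.W_mono J J' u p p' hJ hp)

theorem sat_cls (J : Finset (G d)) (p : G d → L) : Sat S.W J (S.cls J p) :=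
  fun _ _ h h' => h.symm.trans h'

theorem mem_cls (J : Finset (G d)) (p : G d → L) : p ∈ S.cls J p := rfl

theorem cls_congr {J : Finset (G d)} {p p' : G d → L} (h : S.W J p = S.W J p') :
    S.cls J p = S.cls J p' := by
  unfold cls
  rw [h]

theorem cls_anti {J J' : Finset (G d)} (hJ : J ⊆ J') (p : G d → L) : S.cls J' p ⊆ S.cls J p :=
  fun q hq => S.sat_mono hJ (S.sat_cls J p) p q (Eq.symm hq) (S.mem_cls J p)

theorem Disc.sat_meas {S : Side H η L F} (hD : S.Disc) {J : Finset (G d)} {E : Set (G d → L)}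
    (h : Sat S.W J E) : MeasurableSet E := by
  have : E = ⋃ w ∈ (Set.range (S.W J)), {p | S.W J p = w} ∩ {_p | ∃ q ∈ E, S.W J q = w} := by
    ext p
    simp only [Set.mem_iUnion, Set.mem_inter_iff, Set.mem_ofPred_eq]
    constructor
    · intro hp
      exact ⟨_, ⟨p, rfl⟩, rfl, p, hp, rfl⟩
    · rintro ⟨w, _, h1, q, hq, h2⟩
      exact h q p (h2.trans h1.symm) hq
  rw [this]
  refine MeasurableSet.biUnion (hD.count J) ?_
  rintro _ ⟨p, rfl⟩
  exact (hD.meas J p).inter (MeasurableSet.const _)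

theorem Disc.measurable {S : Side H η L F} (hD : S.Disc) {α : Type} [MeasurableSpace α]
    (J : Finset (G d)) {f : (G d → L) → α} (h : ∀ p p', S.W J p = S.W J p' → f p = f p') :
    Measurable f := fun E _ =>
  hD.sat_meas (J := J) fun p p' hp hE => by
    show f p' ∈ E
    rw [← h p p' hp]
    exact hE

theorem Disc.measurable_mu_cls {S : Side H η L F} (hD : S.Disc) (m : Measure (G d → L))
    (J : Finset (G d)) : Measurable fun p => m (S.cls J p) :=
  hD.measurable J fun _ _ hp => by rw [S.cls_congr hp]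

/-- Almost surely the class of a configuration has positive mass. -/
theorem Disc.ae_cls_pos {S : Side H η L F} (hD : S.Disc) (m : Measure (G d → L))
    (J : Finset (G d)) : ∀ᵐ p ∂m, m (S.cls J p) ≠ 0 := by
  rw [ae_iff]
  have : {p | ¬ m (S.cls J p) ≠ 0} ⊆
      ⋃ w ∈ {w ∈ Set.range (S.W J) | m {p | S.W J p = w} = 0}, {p | S.W J p = w} := by
    intro p hp
    simp only [Set.mem_iUnion]
    exact ⟨S.W J p, ⟨⟨p, rfl⟩, not_not.1 hp⟩, rfl⟩
  refine measure_mono_null this ?_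
  rw [measure_biUnion_null_iff ((hD.count J).mono (Set.sep_subset _ _))]
  exact fun w hw => hw.2

/-- One step of the product formula. -/
theorem prod_one {n j : ℕ} {θ θ' : T} {u : G d} (hpos : η (H.ev n θ) ≠ 0)
    (hsub : H.ev n θ ⊆ sh u ⁻¹' H.ev j θ') {E E0 : Set (G d → L)} (hE : MeasurableSet E)
    (hE0 : MeasurableSet E0) (hs : Sat S.W (H.C θ') E) {J : Finset (G d)} (hs0 : Sat S.W J E0)
    (hJ : ∀ v ∈ J, v - u ∉ H.Z θ') :
    S.mu n θ (E0 ∩ sh u ⁻¹' E) = S.mu n θ E0 * S.mu j θ' E := by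
  classical
  have := S.eta_prob
  have key := S.indep j θ' (J.image (· - u)) E (sh (-u) ⁻¹' E0) (sh (-u) ⁻¹' H.ev n θ) hE
    (measurable_sh _ hE0) (measurable_sh _ (H.measurableSet_ev n θ)) hs
    (by
      intro v hv
      obtain ⟨w, hw, rfl⟩ := Finset.mem_image.1 hv
      exact hJ w hw)
    (S.sat_shift (-u) (fun v hv => Finset.mem_image.2 ⟨v, hv, by abel⟩) hs0)
  rw [← S.stat.pre u, ← S.stat.pre u (cm ⁻¹' _ ∩ pv ⁻¹' (sh (-u) ⁻¹' E0))] at key
  have e1 : sh u ⁻¹' (cm ⁻¹' (H.ev j θ' ∩ sh (-u) ⁻¹' H.ev n θ) ∩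
      pv ⁻¹' (E ∩ sh (-u) ⁻¹' E0) : Set (G d → K × L)) =
      cm ⁻¹' H.ev n θ ∩ pv ⁻¹' (E0 ∩ sh u ⁻¹' E) := by
    ext ω
    simp only [Set.mem_preimage, Set.mem_inter_iff, cm_sh, pv_sh, sh_sh, neg_add_cancel, sh_zero]
    constructor
    · rintro ⟨⟨_, h2⟩, h3, h4⟩
      exact ⟨h2, h4, h3⟩
    · rintro ⟨h2, h4, h3⟩
      exact ⟨⟨hsub h2, h2⟩, h3, h4⟩
  have e2 : sh u ⁻¹' (cm ⁻¹' (H.ev j θ' ∩ sh (-u) ⁻¹' H.ev n θ) ∩
      pv ⁻¹' (sh (-u) ⁻¹' E0) : Set (G d → K × L)) = cm ⁻¹' H.ev n θ ∩ pv ⁻¹' E0 := by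
    ext ω
    simp only [Set.mem_preimage, Set.mem_inter_iff, cm_sh, pv_sh, sh_sh, neg_add_cancel, sh_zero]
    constructor
    · rintro ⟨⟨_, h2⟩, h4⟩
      exact ⟨h2, h4⟩
    · rintro ⟨h2, h4⟩
      exact ⟨⟨hsub h2, h2⟩, h4⟩
  rw [e1, e2, S.P_ev n θ (hE0.inter (measurable_sh _ hE)), S.P_ev n θ hE0] at key
  apply (ENNReal.mul_right_inj hpos (measure_ne_top _ _)).1
  rw [key]
  unfold mu
  ring

/-- Product formula over a family of maximal subcells. -/
theorem prod_sub {n : ℕ} {θ : T} (hpos : η (H.ev n θ) ≠ 0) {Sl : Set ℕ} (hS : ∀ j ∈ Sl, j < n)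
    (A : Finset (ℕ × G d × T)) (hA : ∀ s ∈ A, H.SubMax Sl n θ s)
    (E : ℕ × G d × T → Set (G d → L)) (hE : ∀ s ∈ A, MeasurableSet (E s))
    (hs : ∀ s ∈ A, Sat S.W (H.C s.2.2) (E s)) {E0 : Set (G d → L)} (hE0 : MeasurableSet E0)
    {J : Finset (G d)} (hs0 : Sat S.W J E0) (hJ : ∀ s ∈ A, ∀ v ∈ J, v - s.2.1 ∉ H.Z s.2.2) :
    S.mu n θ (E0 ∩ ⋂ s ∈ A, sh s.2.1 ⁻¹' E s) =
      S.mu n θ E0 * ∏ s ∈ A, S.mu s.1 s.2.2 (E s) := by
  classical
  induction A using Finset.induction_on generalizing E0 J with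
  | empty => simp
  | insert a A ha ih =>
    have haM := hA a (Finset.mem_insert_self _ _)
    have hsub : H.ev n θ ⊆ sh a.2.1 ⁻¹' H.ev a.1 a.2.2 := fun h hh => Hier.SubMax.th H hS hh haM
    rw [Finset.set_biInter_insert, ← Set.inter_assoc, Finset.prod_insert ha, ← mul_assoc,
      ← S.prod_one hpos hsub (hE a (Finset.mem_insert_self _ _)) hE0
        (hs a (Finset.mem_insert_self _ _)) hs0 (hJ a (Finset.mem_insert_self _ _))]
    refine ih (fun s h => hA s (Finset.mem_insert_of_mem h))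
      (fun s h => hE s (Finset.mem_insert_of_mem h))
      (fun s h => hs s (Finset.mem_insert_of_mem h))
      (hE0.inter (measurable_sh _ (hE a (Finset.mem_insert_self _ _))))
      (J := J ∪ (H.C a.2.2).image (· + a.2.1)) ?_ ?_
    · refine (S.sat_mono Finset.subset_union_left hs0).inter ?_
      exact S.sat_shift _ (fun v hv => Finset.mem_union_right _ (Finset.mem_image_of_mem _ hv))
        (hs a (Finset.mem_insert_self _ _))
    · intro s h v hv
      rcases Finset.mem_union.1 hv with hv | hv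
      · exact hJ s (Finset.mem_insert_of_mem h) v hv
      · obtain ⟨w, hw, rfl⟩ := Finset.mem_image.1 hv
        intro hz
        have := H.subMax_eq hS haM (hA s (Finset.mem_insert_of_mem h)) (v := w + a.2.1)
          (by simpa using H.CZ _ hw) hz
        exact ha (this ▸ h)

theorem prod_sub' {n : ℕ} {θ : T} (hpos : η (H.ev n θ) ≠ 0) {Sl : Set ℕ} (hS : ∀ j ∈ Sl, j < n)
    (A : Finset (ℕ × G d × T)) (hA : ∀ s ∈ A, H.SubMax Sl n θ s)
    (E : ℕ × G d × T → Set (G d → L)) (hE : ∀ s ∈ A, MeasurableSet (E s))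
    (hs : ∀ s ∈ A, Sat S.W (H.C s.2.2) (E s)) :
    S.mu n θ (⋂ s ∈ A, sh s.2.1 ⁻¹' E s) = ∏ s ∈ A, S.mu s.1 s.2.2 (E s) := by
  have := S.mu_prob hpos
  have h := S.prod_sub hpos hS A hA E hE hs MeasurableSet.univ (J := ∅) (sat_univ _ _)
    (by simp)
  simpa using h

/-- The law of the private part on a maximal subcell. -/
theorem mu_sub {n : ℕ} {θ : T} (hpos : η (H.ev n θ) ≠ 0) {Sl : Set ℕ} (hS : ∀ j ∈ Sl, j < n)
    {s : ℕ × G d × T} (hA : H.SubMax Sl n θ s) {E : Set (G d → L)} (hE : MeasurableSet E)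
    (hs : Sat S.W (H.C s.2.2) E) : S.mu n θ (sh s.2.1 ⁻¹' E) = S.mu s.1 s.2.2 E := by
  have h := S.prod_sub' hpos hS {s} (by simpa using hA) (fun _ => E) (fun _ _ => hE)
    (by simpa using hs)
  simpa using h

/-- Mass transport. -/
theorem mtp [Countable T] (n : ℕ) (g : T → G d → (G d → K × L) → ℝ≥0∞)
    (hg : ∀ θ w, Measurable (g θ w)) :
    ∑' θ, ∑ w ∈ H.C θ, ∫⁻ ω in cm ⁻¹' H.ev n θ, g θ w ω ∂S.P =
      ∫⁻ ω, ∑' x : G d × T, {ω | H.th n (sh x.1 (cm ω)) = some x.2 ∧ -x.1 ∈ H.C x.2}.indicator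
        (fun ω => g x.2 (-x.1) (sh x.1 ω)) ω ∂S.P := by
  classical
  have hm : ∀ x : G d × T, MeasurableSet
      {ω : G d → K × L | H.th n (sh x.1 (cm ω)) = some x.2 ∧ -x.1 ∈ H.C x.2} := fun x =>
    (measurable_cm (H.measurableSet_th_sh n x.1 x.2)).inter (MeasurableSet.const _)
  have hg' : ∀ x : G d × T, Measurable fun ω => g x.2 (-x.1) (sh x.1 ω) := fun x =>
    (hg x.2 (-x.1)).comp (measurable_sh _)
  rw [lintegral_tsum fun x => ((hg' x).indicator (hm x)).aemeasurable, ENNReal.tsum_prod',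
    ENNReal.tsum_comm]
  refine tsum_congr fun θ => ?_
  have h1 : ∀ u : G d, ∫⁻ ω, {ω | H.th n (sh u (cm ω)) = some θ ∧ -u ∈ H.C θ}.indicator
      (fun ω => g θ (-u) (sh u ω)) ω ∂S.P =
      if -u ∈ H.C θ then ∫⁻ ω in cm ⁻¹' H.ev n θ, g θ (-u) ω ∂S.P else 0 := by
    intro u
    split_ifs with hu
    · rw [← lintegral_indicator (measurable_cm (H.measurableSet_ev n θ)),
        ← S.stat.lintegral u ((hg θ (-u)).indicator (measurable_cm (H.measurableSet_ev n θ)))]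
      refine lintegral_congr fun ω => ?_
      simp only [Set.indicator, Set.mem_ofPred_eq, hu, and_true, Set.mem_preimage, cm_sh]
      exact if_congr Iff.rfl rfl rfl
    · simp [hu]
  simp only [h1]
  rw [← (Equiv.neg (G d)).tsum_eq]
  simp only [Equiv.neg_apply, neg_neg]
  rw [tsum_eq_sum (s := H.C θ) fun w hw => by simp [hw]]
  exact Finset.sum_congr rfl fun w hw => by simp [hw]

omit [MeasurableSpace L] in
theorem tsum_cov (n : ℕ) (ω : G d → K × L) (f : G d × T → ℝ≥0∞) {u : G d} {θ : T}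
    (h1 : H.th n (sh u (cm ω)) = some θ) (h2 : -u ∈ H.C θ) :
    ∑' x : G d × T, {ω : G d → K × L | H.th n (sh x.1 (cm ω)) = some x.2 ∧
      -x.1 ∈ H.C x.2}.indicator (fun _ => f x) ω = f (u, θ) := by
  rw [tsum_eq_single (u, θ)]
  · simp [h1, h2]
  · intro x hx
    rw [Set.indicator_of_notMem]
    rintro ⟨h3, h4⟩
    obtain ⟨e1, e2⟩ := H.cov_unique h3 h4 h1 h2
    exact hx (Prod.ext e1 e2)

/-- Mass transport for events. -/
theorem mtp_set [Countable T] (n : ℕ) (B : T → G d → Set (G d → K × L))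
    (hB : ∀ θ w, MeasurableSet (B θ w)) :
    ∑' θ, ∑ w ∈ H.C θ, S.P (cm ⁻¹' H.ev n θ ∩ B θ w) =
      S.P {ω | ∃ u θ, H.th n (sh u (cm ω)) = some θ ∧ -u ∈ H.C θ ∧ sh u ω ∈ B θ (-u)} := by
  have hm : MeasurableSet
      {ω : G d → K × L | ∃ u θ, H.th n (sh u (cm ω)) = some θ ∧ -u ∈ H.C θ ∧
        sh u ω ∈ B θ (-u)} := by
    simp only [Set.ofPred_exists]
    exact MeasurableSet.iUnion fun u => MeasurableSet.iUnion fun θ =>
      (measurable_cm (H.measurableSet_th_sh n u θ)).inter ((MeasurableSet.const _).inter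
        (measurable_sh u (hB θ (-u))))
  have h := S.mtp n (fun θ w => (B θ w).indicator 1) fun θ w => measurable_one.indicator (hB θ w)
  simp only [lintegral_indicator_one (hB _ _), Measure.restrict_apply (hB _ _)] at h
  simp only [Set.inter_comm (cm ⁻¹' H.ev n _)]
  rw [h, ← lintegral_indicator_one hm]
  refine lintegral_congr fun ω => ?_
  by_cases hc : ∃ u θ, H.th n (sh u (cm ω)) = some θ ∧ -u ∈ H.C θ
  · obtain ⟨u, θ, h1, h2⟩ := hc
    have := tsum_cov n ω (fun x => (B x.2 (-x.1)).indicator 1 (sh x.1 ω)) h1 h2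
    simp only [Set.indicator, Set.mem_ofPred_eq, Pi.one_apply] at this ⊢
    rw [this]
    congr 1
    apply propext
    constructor
    · intro h3
      exact ⟨u, θ, h1, h2, h3⟩
    · rintro ⟨u', θ', h3, h4, h5⟩
      obtain ⟨rfl, rfl⟩ := H.cov_unique h3 h4 h1 h2
      exact h5
  · rw [Set.indicator_of_notMem (by rintro ⟨u, θ, h1, h2, _⟩; exact hc ⟨u, θ, h1, h2⟩)]
    rw [ENNReal.tsum_eq_zero]
    intro x
    exact Set.indicator_of_notMem (by intro h; exact hc ⟨x.1, x.2, h⟩) _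

/-- Mass transport for events, as an inequality valid for arbitrary sets. -/
theorem mtp_le [Countable T] (n : ℕ) (B : T → G d → Set (G d → K × L)) :
    S.P {ω | ∃ u θ, H.th n (sh u (cm ω)) = some θ ∧ -u ∈ H.C θ ∧ sh u ω ∈ B θ (-u)} ≤
      ∑' θ, ∑ w ∈ H.C θ, S.P (cm ⁻¹' H.ev n θ ∩ B θ w) := by
  have h := S.mtp_set n (fun θ w => toMeasurable S.P (cm ⁻¹' H.ev n θ ∩ B θ w))
    fun _ _ => measurableSet_toMeasurable _ _
  refine le_trans (measure_mono ?_) (h.ge.trans ?_)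
  · rintro ω ⟨u, θ, h1, h2, h3⟩
    exact ⟨u, θ, h1, h2, subset_toMeasurable _ _ ⟨h1, h3⟩⟩
  · refine ENNReal.tsum_le_tsum fun θ => Finset.sum_le_sum fun w _ => ?_
    exact (measure_mono Set.inter_subset_right).trans (measure_toMeasurable _).le

/-- Mass transport for functions of the site. -/
theorem mtp_fun [Countable T] (n : ℕ) {f : (G d → K × L) → ℝ≥0∞} (hf : Measurable f) :
    ∑' θ, ∫⁻ ω in cm ⁻¹' H.ev n θ, ∑ v ∈ H.C θ, f (sh v ω) ∂S.P =
      ∫⁻ ω in {ω | H.cov n (cm ω)}, f ω ∂S.P := by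
  have h := S.mtp n (fun _ w ω => f (sh w ω)) fun _ w => hf.comp (measurable_sh w)
  have hm : MeasurableSet {ω : G d → K × L | H.cov n (cm ω)} :=
    measurable_cm (H.measurableSet_cov n)
  rw [← lintegral_indicator hm]
  have hf' : ∀ w : G d, Measurable fun ω => f (sh w ω) := fun w => hf.comp (measurable_sh w)
  simp only [lintegral_finsetSum _ fun w _ => hf' w]
  rw [h]
  refine lintegral_congr fun ω => ?_
  by_cases hc : H.cov n (cm ω)
  · obtain ⟨u, θ, h1, h2⟩ := id hc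
    have := tsum_cov n ω (fun _ => f ω) h1 h2
    simp only [Set.indicator, Set.mem_ofPred_eq, sh_sh, neg_add_cancel, sh_zero, hc,
      if_true] at this ⊢
    exact this
  · rw [Set.indicator_of_notMem (s := {ω | H.cov n (cm ω)}) hc, ENNReal.tsum_eq_zero]
    intro x
    exact Set.indicator_of_notMem (by intro h; exact hc ⟨x.1, x.2, h⟩) _

theorem wt_mono (n : ℕ) {B B' : Set (G d → K × L)} (h : B ⊆ B') : S.wt n B ≤ S.wt n B' :=
  ENNReal.tsum_le_tsum fun _ => mul_le_mul_right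
    (measure_mono (Set.inter_subset_inter_right _ h)) _

/-- Only the trace on events of positive probability matters. -/
theorem wt_mono' (n : ℕ) {B B' : Set (G d → K × L)}
    (h : ∀ ω θ, H.th n (cm ω) = some θ → η (H.ev n θ) ≠ 0 → ω ∈ B → ω ∈ B') :
    S.wt n B ≤ S.wt n B' := by
  refine ENNReal.tsum_le_tsum fun θ => mul_le_mul_right ?_ _
  by_cases h0 : η (H.ev n θ) = 0
  · rw [← S.P_cm (H.measurableSet_ev n θ)] at h0
    rw [measure_mono_null Set.inter_subset_left h0]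
    exact zero_le
  · exact measure_mono fun ω hω => ⟨hω.1, h ω θ hω.1 h0 hω.2⟩

theorem wt_union_le (n : ℕ) (B B' : Set (G d → K × L)) :
    S.wt n (B ∪ B') ≤ S.wt n B + S.wt n B' := by
  unfold wt
  rw [← ENNReal.tsum_add]
  refine ENNReal.tsum_le_tsum fun θ => ?_
  rw [← mul_add, Set.inter_union_distrib_left]
  exact mul_le_mul_right (measure_union_le _ _) _

theorem wt_univ [Countable T] (n : ℕ) : S.wt n Set.univ = η {h | H.cov n h} := by
  have h := S.mtp_set n (fun _ _ => Set.univ) fun _ _ => MeasurableSet.univ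
  simp only [Finset.sum_const, nsmul_eq_mul, Set.mem_univ, and_true] at h
  rw [← S.P_cm (H.measurableSet_cov n)]
  exact h

theorem wt_le_one [Countable T] (n : ℕ) (B : Set (G d → K × L)) : S.wt n B ≤ 1 := by
  have := S.eta_prob
  refine (S.wt_mono n (Set.subset_univ B)).trans ?_
  rw [S.wt_univ]
  exact prob_le_one

include S in
theorem sum_card_ev_le_one [Countable T] (n : ℕ) :
    ∑' θ, ((H.C θ).card : ℝ≥0∞) * η (H.ev n θ) ≤ 1 := by
  have := S.wt_le_one n Set.univ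
  simpa only [wt, Set.inter_univ, S.P_cm (H.measurableSet_ev n _)] using this

theorem wt_eq (n : ℕ) (B : T → Set (G d → L)) (hB : ∀ θ, MeasurableSet (B θ)) :
    S.wt n {ω | ∃ θ, H.th n (cm ω) = some θ ∧ pv ω ∈ B θ} =
      ∑' θ, ((H.C θ).card : ℝ≥0∞) * (η (H.ev n θ) * S.mu n θ (B θ)) := by
  refine tsum_congr fun θ => ?_
  rw [← S.P_ev n θ (hB θ)]
  congr 2
  ext ω
  simp only [Set.mem_inter_iff, Set.mem_preimage, Set.mem_ofPred_eq, Hier.ev]
  refine and_congr_right fun h => ⟨?_, fun h' => ⟨θ, h, h'⟩⟩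
  rintro ⟨θ', h1, h2⟩
  rw [h] at h1
  rw [Option.some.inj h1]
  exact h2

theorem cover_le_wt [Countable T] (n : ℕ) (B : Set (G d → K × L)) :
    S.P {ω | ∃ u θ, H.th n (sh u (cm ω)) = some θ ∧ -u ∈ H.C θ ∧ sh u ω ∈ B} ≤ S.wt n B := by
  have h := S.mtp_le n fun _ _ => B
  simpa only [Finset.sum_const, nsmul_eq_mul, wt] using h

/-- Markov inequality for sums over a cell. -/
theorem wt_markov [Countable T] (n : ℕ) {f : (G d → K × L) → ℝ≥0∞} (hf : Measurable f)
    (c : ℝ≥0∞) :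
    c * S.wt n {ω | ∃ θ, H.th n (cm ω) = some θ ∧
      c * ((H.C θ).card : ℝ≥0∞) ≤ ∑ v ∈ H.C θ, f (sh v ω)} ≤ ∫⁻ ω, f ω ∂S.P := by
  refine le_trans ?_ ((S.mtp_fun n hf).le.trans (setLIntegral_le_lintegral _ _))
  unfold wt
  rw [← ENNReal.tsum_mul_left]
  refine ENNReal.tsum_le_tsum fun θ => ?_
  have hm : Measurable fun ω => ∑ v ∈ H.C θ, f (sh v ω) :=
    Finset.measurable_sum _ fun v _ => hf.comp (measurable_sh v)
  have := mul_meas_ge_le_lintegral (μ := S.P.restrict (cm ⁻¹' H.ev n θ)) hm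
    (c * ((H.C θ).card : ℝ≥0∞))
  refine le_trans ?_ this
  rw [← mul_assoc, Measure.restrict_apply' (measurable_cm (H.measurableSet_ev n θ))]
  refine mul_le_mul_right (measure_mono ?_) _
  rintro ω ⟨h1, θ', h2, h3⟩
  have h1' : H.th n (cm ω) = some θ := h1
  rw [h1'] at h2
  rw [← Option.some.inj h2] at h3
  exact ⟨h3, h1⟩

/-- If failures on covered levels have vanishing probability along an infinite set of levels,
then almost surely some level succeeds. -/
theorem ae_exists_of_tendsto (hc : H.Cov η) (f : ℕ → ℕ) (hf : StrictMono f)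
    (Gd : ℕ → Set (G d → K × L))
    (h : Tendsto (fun i => S.P {ω | H.cov (f i) (cm ω) ∧ ω ∉ Gd i}) atTop (𝓝 0)) :
    ∀ᵐ ω ∂S.P, ∃ i, ω ∈ Gd i := by
  rw [ae_iff]
  refine le_antisymm (ENNReal.le_of_forall_pos_le_add fun ε hε _ => ?_) zero_le
  rw [zero_add]
  obtain ⟨δ, hδ, hs⟩ := ENNReal.exists_pos_sum_of_countable (ε := ε)
    (by exact_mod_cast hε.ne') ℕ
  have h1 : ∀ j, ∀ᶠ i in atTop, S.P {ω | H.cov (f i) (cm ω) ∧ ω ∉ Gd i} ≤ δ j := fun j =>
    (ENNReal.tendsto_nhds_zero.1 h) (δ j) (by exact_mod_cast hδ j)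
  obtain ⟨g, hg, hg2⟩ := extraction_forall_of_eventually h1
  have hinf : (Set.range (f ∘ g)).Infinite :=
    Set.infinite_range_of_injective (hf.comp hg).injective
  have h2 := S.ae_cm (hc 0 _ hinf)
  calc S.P {ω | ¬ ∃ i, ω ∈ Gd i}
      ≤ S.P (⋃ j, {ω | H.cov (f (g j)) (cm ω) ∧ ω ∉ Gd (g j)}) := by
        refine measure_mono_ae ?_
        filter_upwards [h2] with ω hω hn
        obtain ⟨_, ⟨j, rfl⟩, u, θ, e1, e2⟩ := hω
        refine Set.mem_iUnion.2 ⟨j, ⟨u, θ, e1, ?_⟩, fun hh => hn ⟨_, hh⟩⟩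
        simpa using e2 0 (by simp)
    _ ≤ ∑' j, S.P {ω | H.cov (f (g j)) (cm ω) ∧ ω ∉ Gd (g j)} := measure_iUnion_le _
    _ ≤ ∑' j, (δ j : ℝ≥0∞) := ENNReal.tsum_le_tsum hg2
    _ ≤ ε := hs.le

end Side

end Pool.Agent.FDI
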