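import Pool.Agent.P.MP_1a5a6a_pr.Half

/-! Relative isomorphism of measures with atomless fibres. -/

set_option autoImplicit false

open MeasureTheory ProbabilityTheory Filter Topology
open scoped ENNReal

namespace Pool.Agent.FDI

namespace Rokhlin

open Set

open Classical in
/-- The quantile function. -/
noncomputable def qt (m : Measure ℝ) (t : ℝ) : ℝ :=
  if t ∈ Ioo (0 : ℝ) 1 then sInf {r | t ≤ m.real (Iic r)} else 0

lemma qt_le_iff (m : Measure ℝ) [IsProbabilityMeasure m] {t : ℝ} (ht : t ∈ Ioo (0 : ℝ) 1) (r : ℝ) :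
    qt m t ≤ r ↔ t ≤ m.real (Iic r) := by
  simp only [qt, if_pos ht, ← cdf_eq_real]
  have hne : {r | t ≤ cdf m r}.Nonempty :=
    ((tendsto_cdf_atTop m).eventually (eventually_ge_nhds ht.2)).exists
  have hbd : BddBelow {r | t ≤ cdf m r} := by
    obtain ⟨b, hb⟩ := eventually_atBot.mp ((tendsto_cdf_atBot m).eventually (eventually_lt_nhds ht.1))
    refine ⟨b, fun r hr => ?_⟩
    by_contra h
    exact absurd (hb r (not_le.mp h).le) (not_lt.mpr hr)
  refine ⟨fun h => ?_, fun h => csInf_le hbd h⟩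
  have hc := continuousWithinAt_Ioi_iff_Ici.mpr ((cdf m).right_continuous r)
  refine ge_of_tendsto hc (eventually_nhdsWithin_of_forall fun s hs => ?_)
  obtain ⟨u, hu, hus⟩ := exists_lt_of_csInf_lt hne (h.trans_lt hs)
  exact le_trans hu (monotone_cdf m hus.le)

lemma cdf_qt (m : Measure ℝ) [IsProbabilityMeasure m] (hm : ∀ r, m {r} = 0) {t : ℝ}
    (ht : t ∈ Ioo (0 : ℝ) 1) : m.real (Iic (qt m t)) = t := by
  refine le_antisymm ?_ ((qt_le_iff m ht _).mp le_rfl)
  have h1 : Iio (qt m t) = ⋃ n : ℕ, Iic (qt m t - 1 / ((n : ℝ) + 1)) := by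
    ext s
    simp only [mem_Iio, mem_iUnion, mem_Iic]
    constructor
    · intro hs
      obtain ⟨n, hn⟩ := exists_nat_one_div_lt (sub_pos.mpr hs)
      exact ⟨n, by linarith⟩
    · rintro ⟨n, hn⟩
      have : (0 : ℝ) < 1 / ((n : ℝ) + 1) := Nat.one_div_pos_of_nat
      linarith
  have h2 : m (Iic (qt m t)) ≤ ENNReal.ofReal t := by
    rw [← Iio_union_right]
    refine (measure_union_le _ _).trans ?_
    rw [hm, add_zero, h1, Monotone.measure_iUnion]
    · refine iSup_le fun n => ?_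
      have h3 : ¬ qt m t ≤ qt m t - 1 / ((n : ℝ) + 1) := by
        have : (0 : ℝ) < 1 / ((n : ℝ) + 1) := Nat.one_div_pos_of_nat
        linarith
      rw [qt_le_iff m ht, not_le] at h3
      rw [← ofReal_measureReal]
      exact ENNReal.ofReal_le_ofReal h3.le
    · intro a b hab
      refine Iic_subset_Iic.mpr (sub_le_sub_left ?_ _)
      exact Nat.one_div_le_one_div hab
  exact ENNReal.toReal_le_of_le_ofReal ht.1.le h2

lemma ae_Ioo : ∀ᵐ t ∂unif, t ∈ Ioo (0 : ℝ) 1 := by
  unfold unif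
  rw [← Measure.restrict_congr_set Ioo_ae_eq_Icc]
  exact ae_restrict_mem measurableSet_Ioo

lemma map_qt (m : Measure ℝ) [IsProbabilityMeasure m] (hq : Measurable (qt m)) :
    unif.map (qt m) = m := by
  haveI := Measure.isProbabilityMeasure_map (μ := unif) hq.aemeasurable
  refine Measure.ext_of_Iic _ _ fun r => ?_
  rw [Measure.map_apply hq measurableSet_Iic]
  have h1 : (qt m ⁻¹' Iic r : Set ℝ) =ᵐ[unif] Iic (m.real (Iic r)) := by
    filter_upwards [ae_Ioo] with t ht
    exact propext (qt_le_iff m ht r)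
  rw [measure_congr h1, unif, Measure.restrict_apply measurableSet_Iic]
  have h2 : Iic (m.real (Iic r)) ∩ Icc 0 1 = Icc 0 (m.real (Iic r)) := by
    ext s
    simp only [mem_inter_iff, mem_Iic, mem_Icc]
    exact ⟨fun h => ⟨h.2.1, h.1⟩, fun h => ⟨h.2, h.1, h.2.trans measureReal_le_one⟩⟩
  rw [h2, Real.volume_Icc, sub_zero, ofReal_measureReal]

variable {X : Type} [MeasurableSpace X]

lemma meas_cdf (κ : Kernel X ℝ) [IsMarkovKernel κ] :
    Measurable fun p : X × ℝ => (κ p.1).real (Iic p.2) := by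
  have h := Kernel.measurable_kernel_prodMk_left (κ := κ.prodMkRight ℝ)
    (t := {p : (X × ℝ) × ℝ | p.2 ≤ p.1.2}) (measurableSet_le measurable_snd measurable_fst.snd)
  exact h.ennreal_toReal

lemma meas_qt (κ : Kernel X ℝ) [IsMarkovKernel κ] :
    Measurable fun p : X × ℝ => qt (κ p.1) p.2 := by
  refine measurable_of_Iic fun r => ?_
  have h1 : (fun p : X × ℝ => qt (κ p.1) p.2) ⁻¹' Iic r =
      ({p | p.2 ∈ Ioo (0 : ℝ) 1} ∩ {p | p.2 ≤ (κ p.1).real (Iic r)}) ∪
        ({p | p.2 ∈ Ioo (0 : ℝ) 1}ᶜ ∩ {_p | 0 ≤ r}) := by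
    ext p
    by_cases hp : p.2 ∈ Ioo (0 : ℝ) 1
    · simp only [mem_preimage, mem_Iic, qt_le_iff _ hp, mem_union, mem_inter_iff, mem_compl_iff,
        mem_ofPred_eq, hp, true_and, not_true, false_and, or_false]
    · simp only [mem_preimage, mem_Iic, qt, if_neg hp, mem_union, mem_inter_iff, mem_compl_iff,
        mem_ofPred_eq, hp, false_and, not_false_iff, true_and, false_or, if_false]
  rw [h1]
  have h2 : MeasurableSet {p : X × ℝ | p.2 ∈ Ioo (0 : ℝ) 1} := measurable_snd measurableSet_Ioo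
  refine (h2.inter (measurableSet_le measurable_snd ?_)).union (h2.compl.inter (MeasurableSet.const _))
  exact (meas_cdf κ).comp (measurable_fst.prodMk measurable_const)

lemma one_side {Y Z : Type} [MeasurableSpace Y] [MeasurableSpace Z] [StandardBorelSpace Y]
    [StandardBorelSpace Z] (ρ : Measure (X × Y)) [IsProbabilityMeasure ρ] (e : Y → Z)
    (he : Measurable e)
    (hna : ∀ Q : Set (X × Z), MeasurableSet Q → (∀ x, {s | (x, s) ∈ Q}.Countable) →
      ρ {w | (w.1, e w.2) ∈ Q} = 0) :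
    ∃ (F : X × Y → ℝ) (Gm : X × ℝ → Y), Measurable F ∧ Measurable Gm ∧
      ρ.map (fun w => (w.1, F w)) = ρ.fst.prod unif ∧
      (ρ.fst.prod unif).map (fun p => (p.1, Gm p)) = ρ ∧
      (∀ᵐ w ∂ρ, Gm (w.1, F w) = w.2) ∧ (∀ᵐ p ∂ρ.fst.prod unif, F (p.1, Gm p) = p.2) := by
  haveI : Nonempty Y := (nonempty_of_isProbabilityMeasure ρ).map Prod.snd
  set κ₀ := ρ.condKernel with hκ₀
  have hdis : ρ.fst ⊗ₘ κ₀ = ρ := ρ.disintegrate κ₀
  have hat : ∀ᵐ x ∂ρ.fst, ∀ y, κ₀ x {y} = 0 := by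
    let Q : Set (X × Z) := {p | 0 < κ₀ p.1 {y | e y = p.2}}
    have hQ : MeasurableSet Q := by
      have h := Kernel.measurable_kernel_prodMk_left (κ := κ₀.prodMkRight Z)
        (t := {p : (X × Z) × Y | e p.2 = p.1.2})
        (measurableSet_eq_fun (he.comp measurable_snd) measurable_fst.snd)
      exact measurableSet_lt measurable_const h
    have h0 := hna Q hQ fun x => Measure.countable_meas_level_set_pos (μ := κ₀ x) he
    have hm : MeasurableSet {w : X × Y | (w.1, e w.2) ∈ Q} :=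
      (measurable_fst.prodMk (he.comp measurable_snd)) hQ
    rw [← hdis, Measure.compProd_apply hm,
      lintegral_eq_zero_iff (Kernel.measurable_kernel_prodMk_left hm)] at h0
    filter_upwards [h0] with x hx y
    by_contra hy
    refine hy (measure_mono_null ?_ hx)
    rintro _ rfl
    exact (pos_iff_ne_zero.mpr hy).trans_le (measure_mono (by rintro _ rfl; rfl))
  have hemb := measurableEmbedding_embeddingReal Y
  set emb := embeddingReal Y
  let κ : Kernel X ℝ := κ₀.map emb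
  haveI : IsMarkovKernel κ := Kernel.IsMarkovKernel.map _ hemb.measurable
  have hκ : ∀ x, κ x = (κ₀ x).map emb := fun x => Kernel.map_apply _ hemb.measurable x
  let F : X × Y → ℝ := fun w => (κ w.1).real (Iic (emb w.2))
  let Gm : X × ℝ → Y := fun p => hemb.invFun (qt (κ p.1) p.2)
  have hF : Measurable F :=
    (meas_cdf κ).comp (measurable_fst.prodMk (hemb.measurable.comp measurable_snd))
  have hG : Measurable Gm := hemb.measurable_invFun.comp (meas_qt κ)
  have hqx : ∀ x, Measurable (qt (κ x)) := fun x =>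
    (meas_qt κ).comp (measurable_const.prodMk measurable_id)
  have hGx : ∀ x, unif.map (fun t => Gm (x, t)) = κ₀ x := by
    intro x
    have h1 : (fun t => Gm (x, t)) = hemb.invFun ∘ qt (κ x) := rfl
    rw [h1, ← Measure.map_map hemb.measurable_invFun (hqx x), map_qt _ (hqx x), hκ,
      Measure.map_map hemb.measurable_invFun hemb.measurable, hemb.leftInverse_invFun.id,
      Measure.map_id]
  have hG1 : Measurable fun p : X × ℝ => (p.1, Gm p) := measurable_fst.prodMk hG
  have hF1 : Measurable fun w : X × Y => (w.1, F w) := measurable_fst.prodMk hF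
  have hmapG : (ρ.fst.prod unif).map (fun p => (p.1, Gm p)) = ρ := by
    conv_rhs => rw [← hdis]
    ext s hs
    rw [Measure.map_apply hG1 hs, Measure.prod_apply (hG1 hs), Measure.compProd_apply hs]
    refine lintegral_congr fun x => ?_
    have hm : Measurable fun t => Gm (x, t) := hG.comp measurable_prodMk_left
    rw [← hGx x, Measure.map_apply hm (measurable_prodMk_left hs)]
    rfl
  have hFG : ∀ᵐ p ∂ρ.fst.prod unif, F (p.1, Gm p) = p.2 := by
    refine (Measure.ae_prod_iff_ae_ae (measurableSet_eq_fun (hF.comp hG1) measurable_snd)).mpr ?_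
    filter_upwards [hat] with x hx
    have hr : ∀ᵐ t ∂unif, qt (κ x) t ∈ range emb := by
      refine ae_of_ae_map (p := fun r => r ∈ range emb) (hqx x).aemeasurable ?_
      rw [map_qt _ (hqx x), hκ, hemb.ae_map_iff]
      exact Eventually.of_forall fun y => mem_range_self y
    have hn : ∀ r, κ x {r} = 0 := by
      intro r
      rw [hκ, hemb.map_apply]
      by_cases h : r ∈ range emb
      · obtain ⟨y, rfl⟩ := h
        rw [← image_singleton, preimage_image_eq _ hemb.injective]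
        exact hx y
      · rw [preimage_singleton_eq_empty.mpr h, measure_empty]
    filter_upwards [hr, ae_Ioo] with t ⟨y, hy⟩ ht
    show (κ x).real (Iic (emb (hemb.invFun (qt (κ x) t)))) = t
    rw [← hy, hemb.leftInverse_invFun y, hy, cdf_qt _ hn ht]
  refine ⟨F, Gm, hF, hG, ?_, hmapG, ?_, hFG⟩
  · conv_lhs => rw [← hmapG]
    rw [Measure.map_map hF1 hG1]
    conv_rhs => rw [← Measure.map_id (μ := ρ.fst.prod unif)]
    refine Measure.map_congr ?_
    filter_upwards [hFG] with p hp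
    exact Prod.ext rfl hp
  · rw [← hmapG]
    refine (ae_map_iff hG1.aemeasurable (measurableSet_eq_fun (hG.comp hF1) measurable_snd)).mpr ?_
    filter_upwards [hFG] with p hp
    show Gm (p.1, F (p.1, Gm p)) = Gm p
    rw [hp]

lemma glue {X' Y Y' : Type} [MeasurableSpace X'] [MeasurableSpace Y] [MeasurableSpace Y']
    (ρ : Measure (X × Y)) (ρ' : Measure (X' × Y')) [IsProbabilityMeasure ρ]
    [IsProbabilityMeasure ρ'] (f : X → X') (g : X' → X) (hf : Measurable f)
    (hfm : ρ.fst.map f = ρ'.fst) (hgf : ∀ᵐ x ∂ρ.fst, g (f x) = x)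
    (F : X × Y → ℝ) (Gm : X × ℝ → Y) (F' : X' × Y' → ℝ) (Gm' : X' × ℝ → Y')
    (hF : Measurable F) (hG' : Measurable Gm')
    (h1 : ρ.map (fun w => (w.1, F w)) = ρ.fst.prod unif)
    (h2 : (ρ'.fst.prod unif).map (fun p => (p.1, Gm' p)) = ρ')
    (h3 : ∀ᵐ w ∂ρ, Gm (w.1, F w) = w.2) (h4 : ∀ᵐ p ∂ρ'.fst.prod unif, F' (p.1, Gm' p) = p.2) :
    ρ.map (fun w => (f w.1, Gm' (f w.1, F w))) = ρ' ∧
      ∀ᵐ w ∂ρ, Gm (g (f w.1), F' (f w.1, Gm' (f w.1, F w))) = w.2 := by
  have hm : Measurable fun w : X × Y => (f w.1, F w) := (hf.comp measurable_fst).prodMk hF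
  have h5 : ρ.map (fun w => (f w.1, F w)) = ρ'.fst.prod unif := by
    have : (fun w : X × Y => (f w.1, F w)) = Prod.map f id ∘ fun w => (w.1, F w) := rfl
    rw [this, ← Measure.map_map (hf.prodMap measurable_id) (measurable_fst.prodMk hF), h1,
      ← Measure.map_prod_map _ _ hf measurable_id, hfm, Measure.map_id]
  constructor
  · conv_rhs => rw [← h2, ← h5]
    rw [Measure.map_map (measurable_fst.prodMk hG') hm]
    rfl
  · rw [← h5] at h4
    filter_upwards [ae_of_ae_map hm.aemeasurable h4, h3,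
      ae_of_ae_map (μ := ρ) measurable_fst.aemeasurable hgf] with w a1 a2 a3
    rw [a1, a3, a2]

end Rokhlin

theorem rel_iso {X X' Y Y' Z Z' : Type} [MeasurableSpace X] [MeasurableSpace X']
    [MeasurableSpace Y] [MeasurableSpace Y'] [MeasurableSpace Z] [MeasurableSpace Z']
    [StandardBorelSpace X] [StandardBorelSpace X'] [StandardBorelSpace Y] [StandardBorelSpace Y']
    [StandardBorelSpace Z] [StandardBorelSpace Z']
    (ρ : Measure (X × Y)) (ρ' : Measure (X' × Y')) [IsProbabilityMeasure ρ]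
    [IsProbabilityMeasure ρ'] (e : Y → Z) (he : Measurable e) (e' : Y' → Z') (he' : Measurable e')
    (hna : ∀ Q : Set (X × Z), MeasurableSet Q → (∀ x, {s | (x, s) ∈ Q}.Countable) →
      ρ {w | (w.1, e w.2) ∈ Q} = 0)
    (hna' : ∀ Q : Set (X' × Z'), MeasurableSet Q → (∀ x, {s | (x, s) ∈ Q}.Countable) →
      ρ' {w | (w.1, e' w.2) ∈ Q} = 0)
    (f : X → X') (g : X' → X) (hf : Measurable f) (hg : Measurable g)
    (hfm : ρ.fst.map f = ρ'.fst) (hgm : ρ'.fst.map g = ρ.fst)
    (hgf : ∀ᵐ x ∂ρ.fst, g (f x) = x) (hfg : ∀ᵐ x ∂ρ'.fst, f (g x) = x) :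
    ∃ (Φ : X × Y → Y') (Ψ : X' × Y' → Y), Measurable Φ ∧ Measurable Ψ ∧
      ρ.map (fun w => (f w.1, Φ w)) = ρ' ∧ ρ'.map (fun w => (g w.1, Ψ w)) = ρ ∧
      (∀ᵐ w ∂ρ, Ψ (f w.1, Φ w) = w.2) ∧ (∀ᵐ w ∂ρ', Φ (g w.1, Ψ w) = w.2) := by
  obtain ⟨F, Gm, hF, hG, a1, a2, a3, a4⟩ := Rokhlin.one_side ρ e he hna
  obtain ⟨F', Gm', hF', hG', b1, b2, b3, b4⟩ := Rokhlin.one_side ρ' e' he' hna'
  obtain ⟨c1, c2⟩ := Rokhlin.glue ρ ρ' f g hf hfm hgf F Gm F' Gm' hF hG' a1 b2 a3 b4
  obtain ⟨d1, d2⟩ := Rokhlin.glue ρ' ρ g f hg hgm hfg F' Gm' F Gm hF' hG b1 a2 b3 a4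
  exact ⟨fun w => Gm' (f w.1, F w), fun w => Gm (g w.1, F' w),
    hG'.comp ((hf.comp measurable_fst).prodMk hF), hG.comp ((hg.comp measurable_fst).prodMk hF'),
    c1, d1, c2, d2⟩

end Pool.Agent.FDI
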